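import Pool.Agent.D0H33.AXF.Defs
import Pool.Agent.Q67.AXI.Fin

/-!
Project AXF: the theorem at the singular points, all viscosities.
-/

set_option autoImplicit false

open MeasureTheory Set Metric Filter Topology
open scoped ContDiff
open H459R3.NS Pool.Agent.W268.NS Pool.Agent.Q67.VD

namespace Pool.Agent.D0H33.AXF

open Pool.Agent.Q85.CC Pool.Agent.Q85.CL Pool.Agent.TH305.AX Pool.Agent.Q67.AXI

/-- At the same time and in the same cylinder around the axis there are bands with a large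
outward flux and bands with a large inward flux. -/
def Flows (ν T : ℝ) (u : ℝ → V → V) (a : V) : Prop :=
  ∀ (B : ℝ → ℝ) (T₀ R : ℝ), ContinuousOn B (Ioo 0 T) →
    IntegrableOn (fun t => B t ^ 2) (Ioo 0 T) → (∀ t, 0 ≤ B t) → T₀ < T → 0 < R →
      ∃ t ∈ Ioo 0 T, T₀ < t ∧ ∃ ρ ∈ Ioo 0 R,
        ¬ Flx (u t) (a 2 - R) (a 2 + R) (ν / 3 + B t * ρ) ρ

lemma ae_ne_pt (z : ℝ) : ∀ᵐ s : ℝ, s ≠ z := by
  rw [ae_iff]
  have : {s : ℝ | ¬ s ≠ z} = {z} := by
    ext s
    simp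
  rw [this]
  exact measure_singleton z

/-- Scaling of the flux. -/
lemma Flx_scale {u v : V → V} {ν c R ρ e : ℝ} (hν : 0 < ν) (hρ : 0 < ρ) (hρR : ρ < R)
    (hv : ∀ x ∈ Co c R R, v x = ν⁻¹ • u x) (h : Flx u (c - R) (c + R) e ρ) :
    Flx v (c - R) (c + R) (ν⁻¹ * e) ρ := by
  have hνi : 0 < ν⁻¹ := inv_pos.2 hν
  have key : ∀ z₁ z₂ : ℝ, c - R ≤ z₁ → z₁ ≤ z₂ → z₂ ≤ c + R →
      ∫ s in z₁..z₂, v ![ρ, 0, s] 0 = ν⁻¹ * ∫ s in z₁..z₂, u ![ρ, 0, s] 0 := by
    intro z₁ z₂ h1 h2 h3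
    rw [← intervalIntegral.integral_const_mul]
    refine intervalIntegral.integral_congr_ae ?_
    filter_upwards [ae_ne_pt z₂] with s hs hI
    rw [uIoc_of_le h2] at hI
    have hlt : s < z₂ := lt_of_le_of_ne hI.2 hs
    have hm : (![ρ, 0, s] : V) ∈ Co c R R := by
      refine ⟨?_, ?_⟩
      · have e1 : sg ![ρ, 0, s] = ρ ^ 2 := by simp [sg]
        rw [e1]
        exact pow_lt_pow_left₀ hρR hρ.le (by norm_num)
      · show |s - c| < R
        rw [abs_lt]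
        constructor <;> linarith [hI.1]
    rw [hv _ hm]
    rfl
  rcases h with h | h
  · refine Or.inl fun z₁ z₂ h1 h2 h3 => ?_
    rw [key z₁ z₂ h1 h2 h3]
    exact mul_le_mul_of_nonneg_left (h z₁ z₂ h1 h2 h3) hνi.le
  · refine Or.inr fun z₁ z₂ h1 h2 h3 => ?_
    rw [key z₁ z₂ h1 h2 h3]
    have := mul_le_mul_of_nonneg_left (h z₁ z₂ h1 h2 h3) hνi.le
    linarith

/-- The local theorem, all viscosities. -/
theorem flows_D (hM : StmMainF) (hTr : StmTra) {ν T E : ℝ} {Ω : Set V}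
    {u : ℝ → V → V} {p : ℝ → V → ℝ} (hν : 0 < ν) (h : DSl ν T E Ω u p)
    (hax : ∀ t ∈ Ioo 0 T, ∀ (θ : ℝ), ∀ x ∈ Ω, rot θ x ∈ Ω → u t (rot θ x) = rot θ (u t x))
    {a : V} (ha : a ∈ Ω) (ha0 : a 0 = 0) (ha1 : a 1 = 0) (hs : Sing T u a) :
    Flows ν T u a := by
  have hT := hs.pos
  have hae : a = ![0, 0, a 2] := by
    funext i
    fin_cases i
    · exact ha0
    · exact ha1
    · rfl
  intro B T₀ R hBc hBi hB0 hT₀ hR
  by_contra hcon
  push Not at hcon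
  obtain ⟨R', hR', hRR, hsub⟩ := small_ball h.openO ha hR
  rw [hae] at hsub
  obtain ⟨E', v, q, hL, hv⟩ := hTr ν T E Ω u p hν hT h hax (a 2) R' hR' hsub
  have hR2 : 0 < R' / 2 := by positivity
  have hνi : 0 < ν⁻¹ := inv_pos.2 hν
  have hmt : MapsTo (fun s : ℝ => s / ν) (Ioo 0 (ν * T)) (Ioo 0 T) := by
    intro s hs
    exact ⟨div_pos hs.1 hν, by rw [div_lt_iff₀ hν, mul_comm]; exact hs.2⟩
  have hBc' : ContinuousOn (fun s => ν⁻¹ * B (s / ν)) (Ioo 0 (ν * T)) :=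
    continuousOn_const.mul (hBc.comp (by fun_prop) hmt)
  have hBi' : IntegrableOn (fun s => (ν⁻¹ * B (s / ν)) ^ 2) (Ioo 0 (ν * T)) := by
    have h1 : Integrable ((Ioo 0 T).indicator fun t => B t ^ 2) :=
      (integrable_indicator_iff measurableSet_Ioo).2 hBi
    have h2 := (h1.comp_div hν.ne').const_mul (ν⁻¹ ^ 2)
    rw [← integrable_indicator_iff measurableSet_Ioo]
    refine h2.congr (Eventually.of_forall fun s => ?_)
    by_cases hs : s ∈ Ioo 0 (ν * T)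
    · simp only [indicator_of_mem hs, indicator_of_mem (hmt hs)]
      ring
    · have hs' : s / ν ∉ Ioo 0 T := by
        intro hs'
        apply hs
        refine ⟨by have := mul_pos hs'.1 hν; rwa [div_mul_cancel₀ _ hν.ne'] at this, ?_⟩
        have := (div_lt_iff₀ hν).1 hs'.2
        rwa [mul_comm] at this
      simp only [indicator_of_notMem hs, indicator_of_notMem hs', mul_zero]
  have hreg := hM (ν * T) E' (a 2) (R' / 2) (R' / 2) (ν * T₀) v q
    (fun s => ν⁻¹ * B (s / ν))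
    (mul_pos hν hT) hR2 hR2 hL (mul_lt_mul_of_pos_left hT₀ hν) hBc' hBi'
    (fun s => mul_nonneg hνi.le (hB0 _)) (by
      intro t' ht' hT0t' ρ hρ
      have ht := hmt ht'
      have htν : ν * (t' / ν) = t' := by field_simp
      have hT0 : T₀ < t' / ν := by
        rw [lt_div_iff₀ hν, mul_comm]
        exact hT0t'
      have hvx : ∀ x ∈ Co (a 2) (R' / 2) (R' / 2), v t' x = ν⁻¹ • u (t' / ν) x := by
        intro x hx
        rw [← hv _ ht x hx, htν]
      have h1 := hcon (t' / ν) ht hT0 ρ ⟨hρ.1, by linarith [hρ.2]⟩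
      have h2 : Flx (u (t' / ν)) (a 2 - R' / 2) (a 2 + R' / 2) (ν / 3 + B (t' / ν) * ρ) ρ := by
        rcases h1 with h1 | h1
        · exact Or.inl fun z₁ z₂ k1 k2 k3 => h1 z₁ z₂ (by linarith) k2 (by linarith)
        · exact Or.inr fun z₁ z₂ k1 k2 k3 => h1 z₁ z₂ (by linarith) k2 (by linarith)
      have h3 := Flx_scale hν hρ.1 hρ.2 hvx h2
      have h4 : ν⁻¹ * (ν / 3 + B (t' / ν) * ρ) = 1 / 3 + ν⁻¹ * B (t' / ν) * ρ := by
        field_simp
      rw [h4] at h3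
      exact h3)
  have hb := backA hν hv (mem_Co_self hR2 hR2) hreg
  rw [← hae] at hb
  exact hs.not_bdd hb

end Pool.Agent.D0H33.AXF
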