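import Pool.Agent.D0H33.AXF.Defs
import Pool.Agent.Q151.AXI.Main

/-!
Project AXF: the assembly.
-/

set_option autoImplicit false

open MeasureTheory Set Metric Filter Topology
open scoped ContDiff
open H459R3.NS Pool.Agent.W268.NS Pool.Agent.Q67.VD

namespace Pool.Agent.D0H33.AXF

open Pool.Agent.Q85.CC Pool.Agent.Q85.CL Pool.Agent.TH305.AX Pool.Agent.Q67.AXI
open Pool.Agent.Q151.AXI (bdA_mono cut_mono slice inner)

lemma Flx_mono {v : V → V} {a b a' b' e ρ : ℝ} (h : Flx v a b e ρ) (ha : a ≤ a') (hb : b' ≤ b) :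
    Flx v a' b' e ρ := by
  rcases h with h | h
  · exact Or.inl fun z₁ z₂ h1 h2 h3 => h z₁ z₂ (ha.trans h1) h2 (h3.trans hb)
  · exact Or.inr fun z₁ z₂ h1 h2 h3 => h z₁ z₂ (ha.trans h1) h2 (h3.trans hb)

/-- From the cut-off function to the cylinder. -/
lemma W2_cyl {c r h r1 h1 K M : ℝ} {v : V → V} {φ : V → ℝ} (hr0 : 0 < r) (hr : r ≤ 1)
    (hK : 0 ≤ K) (hW : ContDiff ℝ ∞ (WW v)) (hcut : Cut c r h r1 h1 K φ)
    (hO : ∀ x ∈ Out c r h r1 h1, |WW v x| ≤ K)
    (hM : ∫ x, wt g0 x * (φ x ^ 2 * WW v x ^ 2) ≤ M) :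
    ∫ x in Co c r h, wt g0 x * WW v x ^ 2 ≤ M + K ^ 2 * volume.real (Cy c r h) := by
  have hg0 : (0 : ℝ) < g0 := by norm_num [g0]
  have hsgc : Continuous sg := by
    unfold sg
    fun_prop
  have hwc : Continuous (fun x : V => wt g0 x) := by
    unfold wt
    exact hsgc.rpow_const fun x => Or.inr hg0.le
  have hwn : ∀ x : V, 0 ≤ wt g0 x := fun x => Real.rpow_nonneg (sg_nonneg x) _
  have hcc : IsCompact (Cy c r h) := by
    refine Metric.isCompact_of_isClosed_isBounded ?_ ?_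
    · have k1 : IsClosed {x : V | sg x ≤ r ^ 2} := isClosed_le hsgc continuous_const
      have k2 : IsClosed {x : V | |x 2 - c| ≤ h} := isClosed_le (by fun_prop) continuous_const
      exact k1.inter k2
    · refine (isBounded_closedBall (x := (0 : V)) (r := max r (|c| + h))).subset ?_
      rintro y ⟨h1, h2⟩
      rw [mem_closedBall, dist_zero_right, pi_norm_le_iff_of_nonneg (le_max_of_le_left hr0.le)]
      unfold sg at h1
      intro i
      rw [Real.norm_eq_abs]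
      fin_cases i
      · refine le_max_of_le_left (abs_le_of_sq_le_sq ?_ hr0.le)
        change y 0 ^ 2 ≤ r ^ 2
        nlinarith [sq_nonneg (y 1)]
      · refine le_max_of_le_left (abs_le_of_sq_le_sq ?_ hr0.le)
        change y 1 ^ 2 ≤ r ^ 2
        nlinarith [sq_nonneg (y 0)]
      · refine le_max_of_le_right ?_
        change |y 2| ≤ |c| + h
        calc |y 2| = |c + (y 2 - c)| := by rw [add_sub_cancel]
          _ ≤ |c| + |y 2 - c| := abs_add_le _ _
          _ ≤ |c| + h := by linarith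
  have hsub : Co c r h ⊆ Cy c r h := fun x hx => ⟨hx.1.le, hx.2.le⟩
  have hCm : MeasurableSet (Co c r h) := by
    have k1 : IsOpen {x : V | sg x < r ^ 2} := isOpen_lt hsgc continuous_const
    have k2 : IsOpen {x : V | |x 2 - c| < h} := isOpen_lt (by fun_prop) continuous_const
    exact (k1.inter k2).measurableSet
  have hfin : volume (Co c r h) ≠ ⊤ := ((measure_mono hsub).trans_lt hcc.measure_lt_top).ne
  have hWc := hW.continuous
  have i1 : Integrable (fun x => wt g0 x * (φ x ^ 2 * WW v x ^ 2)) := by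
    have k1 : Continuous (fun x => wt g0 x * (φ x ^ 2 * WW v x ^ 2)) :=
      hwc.mul ((hcut.sm.continuous.pow 2).mul (hWc.pow 2))
    have k2 : HasCompactSupport (fun x => wt g0 x * (φ x ^ 2 * WW v x ^ 2)) := by
      refine HasCompactSupport.intro hcut.cs.isCompact fun x hx => ?_
      rw [image_eq_zero_of_notMem_tsupport hx]
      ring
    exact k1.integrable_of_hasCompactSupport k2
  have i2 : IntegrableOn (fun x => wt g0 x * WW v x ^ 2) (Co c r h) :=
    ((hwc.mul (hWc.pow 2)).continuousOn.integrableOn_compact hcc).mono_set hsub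
  have i3 : IntegrableOn (fun _ : V => K ^ 2) (Co c r h) := integrableOn_const hfin
  have h1' : ∫ x in Co c r h, wt g0 x * WW v x ^ 2
      ≤ ∫ x in Co c r h, (wt g0 x * (φ x ^ 2 * WW v x ^ 2) + K ^ 2) := by
    refine setIntegral_mono_on i2 (i1.integrableOn.add i3) hCm fun x hx => ?_
    by_cases hx2 : x ∈ Cy c r1 h1
    · rw [hcut.one x hx2]
      nlinarith [sq_nonneg K]
    · have hxo : x ∈ Out c r h r1 h1 := by
        refine ⟨⟨hx.1.le, hx.2.le⟩, ?_⟩
        by_contra hcon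
        push Not at hcon
        exact hx2 ⟨hcon.1.le, hcon.2.le⟩
      have h3 : WW v x ^ 2 ≤ K ^ 2 := by
        rw [← sq_abs]
        exact pow_le_pow_left₀ (abs_nonneg _) (hO x hxo) 2
      have h4 : wt g0 x ≤ 1 := by
        have h5 : sg x ≤ 1 := hx.1.le.trans (by nlinarith)
        exact Real.rpow_le_one (sg_nonneg x) h5 hg0.le
      have h6 : wt g0 x * WW v x ^ 2 ≤ 1 * K ^ 2 := mul_le_mul h4 h3 (sq_nonneg _) zero_le_one
      have h7 : 0 ≤ wt g0 x * (φ x ^ 2 * WW v x ^ 2) := mul_nonneg (hwn x) (by positivity)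
      linarith
  have h2 : ∫ x in Co c r h, (wt g0 x * (φ x ^ 2 * WW v x ^ 2) + K ^ 2)
      = (∫ x in Co c r h, wt g0 x * (φ x ^ 2 * WW v x ^ 2)) + volume.real (Co c r h) * K ^ 2 := by
    rw [integral_add i1.integrableOn i3, setIntegral_const, smul_eq_mul]
  have h3 : ∫ x in Co c r h, wt g0 x * (φ x ^ 2 * WW v x ^ 2)
      ≤ ∫ x, wt g0 x * (φ x ^ 2 * WW v x ^ 2) :=
    setIntegral_le_integral i1 (Eventually.of_forall fun x => mul_nonneg (hwn x) (by positivity))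
  have h4 : volume.real (Co c r h) ≤ volume.real (Cy c r h) :=
    measureReal_mono hsub hcc.measure_lt_top.ne
  have h5 : volume.real (Co c r h) * K ^ 2 ≤ K ^ 2 * volume.real (Cy c r h) := by
    rw [mul_comm]
    exact mul_le_mul_of_nonneg_left h4 (sq_nonneg K)
  linarith

theorem mainf (hGd : StmGd) (hCut : StmCut) (hFin : StmFin) (hMo : StmMo)
    (hReg : Pool.Agent.Q67.AXI.StmReg) (hAlg : StmAlg) (hFl : StmFl) (hCi : StmCi) (hW2 : StmW2)
    (hWb : StmWbF) : StmMainF := by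
  intro T E c R H T₀ u p B hT hR hH hA hT₀ hBc hBi hB0 hflx
  obtain ⟨r, hr⟩ : ∃ r : ℝ, r = min R (Real.exp (-1)) / 2 := ⟨_, rfl⟩
  have hexp := Real.exp_pos (-1)
  have hr0 : 0 < r := by rw [hr]; positivity
  have hrR : r < R := by rw [hr]; have := min_le_left R (Real.exp (-1)); linarith
  have hre : r ≤ Real.exp (-1) := by
    rw [hr]
    have := min_le_right R (Real.exp (-1))
    linarith
  have hr2 : r ^ 2 ≤ Real.exp (-2) := by
    calc r ^ 2 ≤ Real.exp (-1) ^ 2 := pow_le_pow_left₀ hr0.le hre 2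
      _ = Real.exp (-2) := by rw [← Real.exp_nat_mul]; norm_num
  have hr1 : r < 1 := by
    have : Real.exp (-1) < 1 := by
      rw [Real.exp_lt_one_iff]
      norm_num
    linarith
  obtain ⟨h₀, hh₀⟩ : ∃ h₀ : ℝ, h₀ = min H 1 / 2 := ⟨_, rfl⟩
  have hh₀0 : 0 < h₀ := by rw [hh₀]; positivity
  have hh₀H : h₀ < H := by rw [hh₀]; have := min_le_left H 1; linarith
  have hh₀1 : h₀ < 1 := by rw [hh₀]; have := min_le_right H 1; linarith
  obtain ⟨h, h1, hh1, hh1h, hhh₀, hG⟩ := hGd T E c R H u p hT hR hH hA r h₀ hr0 hrR hh₀0 hh₀H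
  have hh0 : 0 < h := hh1.trans hh1h
  have hhH : h < H := hhh₀.trans hh₀H
  have hh1' : h ≤ 1 := by linarith
  obtain ⟨KA, TA, hKA, hTA0, hTAT, hbA⟩ := hG r (r / 2) le_rfl (by positivity) (by linarith)
  obtain ⟨KC, φ, hKC, hφ⟩ := hCut c r h (r / 2) h1 (by positivity) (by linarith) hh1 hh1h
  obtain ⟨K, hK⟩ : ∃ K : ℝ, K = max KA KC := ⟨_, rfl⟩
  have hKAK : KA ≤ K := by rw [hK]; exact le_max_left _ _
  have hKCK : KC ≤ K := by rw [hK]; exact le_max_right _ _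
  have hK0 : 0 ≤ K := hKA.trans hKAK
  obtain ⟨T₁, hT₁⟩ : ∃ T₁ : ℝ, T₁ = (max TA T₀ + T) / 2 := ⟨_, rfl⟩
  have hmx : max TA T₀ < T := max_lt hTAT hT₀
  have hT₁A : TA ≤ T₁ := by rw [hT₁]; have := le_max_left TA T₀; linarith
  have hT₁0 : T₀ < T₁ := by rw [hT₁]; have := le_max_right TA T₀; linarith
  have hT₁T : T₁ < T := by rw [hT₁]; linarith
  have hT₁p : 0 < T₁ := hTA0.trans_le hT₁A
  have hφ' := cut_mono hKCK hφ
  have hbK : ∀ t ∈ Ico T₁ T, ∀ x ∈ Out c r h (r / 2) h1, BdA K (u t) x := fun t ht x hx =>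
    bdA_mono hKAK (hbA t ⟨hT₁A.trans ht.1, ht.2⟩ x hx)
  have hI : ∀ t ∈ Ico T₁ T, t ∈ Ioo 0 T := fun t ht => ⟨hT₁p.trans_le ht.1, ht.2⟩
  have hside : ∀ x ∈ Cy c r h, (sg x = r ^ 2 ∨ |x 2 - c| = h) → x ∈ Out c r h (r / 2) h1 := by
    intro x hx hb
    refine ⟨hx, ?_⟩
    rcases hb with hb | hb
    · left
      rw [hb]
      exact pow_le_pow_left₀ (by positivity) (by linarith) 2
    · right
      rw [hb]
      exact hh1h.le
  obtain ⟨C₀, hC₀, hcirc⟩ := hCi T E c R H K r h T₁ u p hA hr0 hrR hr1 hh0 hhH hT₁p hT₁T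
    (fun t ht x hx hb => (hbK t ht x (hside x hx hb)).2.2.1)
  have hQ : ∀ t ∈ Ico T₁ T, ∀ x ∈ Co c r h, 0 < sg x →
      |QQ (u t) (c - h) x| ≤ 17 / 50 / √(sg x) + (B t + K) := by
    intro t ht x hx hx0
    have h3 := hFl c r h R H K (1 / 3) (B t) (u t) hr0 hrR hh0 hhH hK0 (by norm_num) (hB0 t)
      (slice hA.smooth_u (hI t ht)) (hA.axi t (hI t ht)) (hA.divfree t (hI t ht))
      (fun y hy hyb => (hbK t ht y (hside y hy (Or.inr hyb))).1 2)
      (fun ρ hρ => Flx_mono (hflx t (hI t ht) (hT₁0.trans_le ht.1) ρ ⟨hρ.1, hρ.2.trans hrR⟩)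
        (by linarith) (by linarith)) x hx hx0
    have h4 : (1 : ℝ) / 3 / √(sg x) ≤ 17 / 50 / √(sg x) :=
      div_le_div_of_nonneg_right (by norm_num) (Real.sqrt_nonneg _)
    linarith
  have hsubI : Ico T₁ T ⊆ Ioo 0 T := hI
  have hBc' : ContinuousOn (fun t => B t + K) (Ico T₁ T) := (hBc.mono hsubI).add continuousOn_const
  have hBi' : IntegrableOn (fun t => (B t + K) ^ 2) (Ico T₁ T) := by
    have j1 : IntegrableOn (fun t => 2 * B t ^ 2 + 2 * K ^ 2) (Ico T₁ T) :=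
      ((hBi.mono_set hsubI).const_mul 2).add
        (integrableOn_const (by rw [Real.volume_Ico]; exact ENNReal.ofReal_ne_top))
    refine Integrable.mono' j1 ((hBc'.pow 2).aestronglyMeasurable measurableSet_Ico)
      (Eventually.of_forall fun t => ?_)
    rw [Real.norm_of_nonneg (sq_nonneg _)]
    nlinarith [sq_nonneg (B t - K)]
  obtain ⟨M, hM0, hM⟩ := hW2 T E c R H K r h (r / 2) h1 T₁ u p (fun t => B t + K) φ hA hK0
    (by positivity) (by linarith) hrR hr1.le hh1 hh1h hhH hh1' hT₁p hT₁T hφ' hbK hBc' hBi'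
    (fun t => add_nonneg (hB0 t) hK0) hQ
  obtain ⟨K₂, hK₂⟩ : ∃ K₂ : ℝ, K₂ = M + K ^ 2 * volume.real (Cy c r h) := ⟨_, rfl⟩
  have hK₂0 : 0 ≤ K₂ := by rw [hK₂]; positivity
  have hci : ∀ t ∈ Ico T₁ T, (∀ x ∈ Co c r h, |circ (u t) x| ≤ C₀) ∧
      ∫ x in Co c r h, wt g0 x * WW (u t) x ^ 2 ≤ K₂ := by
    intro t ht
    refine ⟨fun x hx => hcirc t ht x ⟨hx.1.le, hx.2.le⟩, ?_⟩
    obtain ⟨⟨-, hWs, -, -⟩, -⟩ := hAlg (u t) (slice hA.smooth_u (hI t ht)) (hA.axi t (hI t ht))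
    rw [hK₂]
    exact W2_cyl hr0 hr1.le hK0 hWs hφ' (fun x hx => (hbK t ht x hx).2.2.1) (hM t ht)
  obtain ⟨K', hK', hB⟩ := hWb T E c R H K r h (r / 2) h1 T₁ C₀ K₂ u p φ hA hK0 (by positivity)
    (by linarith) hrR hr2 hh1 hh1h hhH hh1' hT₁p hT₁T hC₀ hK₂0 hφ' hbK hci
  have hen : ∀ t ∈ Ico T₁ T, (∀ x ∈ Cy c (r / 2 / 2) (h1 / 2), |WW (u t) x| ≤ 3 * K') ∧
      ∫ x in Cy c (r / 2 / 2) (h1 / 2), (UU (u t) x ^ 2 + gr2 (UU (u t)) x + OO (u t) x ^ 2)
        ≤ 3 * K' := by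
    intro t ht
    obtain ⟨⟨hU, -, -, hO⟩, -⟩ := hAlg (u t) (slice hA.smooth_u (hI t ht)) (hA.axi t (hI t ht))
    obtain ⟨y1, y2, y3, y4⟩ := hB t ht
    refine ⟨fun x hx => ?_, ?_⟩
    · have hx' : x ∈ Cy c (r / 2) h1 := by
        refine ⟨hx.1.trans ?_, hx.2.trans (by linarith)⟩
        exact pow_le_pow_left₀ (by positivity) (by linarith) 2
      have := y1 x hx'
      linarith
    · have h2 := inner (by positivity) hh1 hφ' hU hO
      linarith
  have hKK : 0 ≤ 3 * K' := by positivity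
  obtain ⟨K₀, hK₀, hmo⟩ := hMo T E c R H (r / 2 / 2) (h1 / 2) T₁ (3 * K') u p hA
    (by positivity) (by linarith) (by positivity) (by linarith) hT₁p hT₁T hKK hen
  obtain ⟨ε, hε, hreg⟩ := hReg K₀ hK₀
  have hqt := hFin T E c R H (r / 2 / 2) (h1 / 2) T₁ (3 * K') u p hA
    (by positivity) (by linarith) (by positivity) (by linarith) hT₁p hT₁T hKK hen ε hε
  refine hreg T E (Co c R H) u p hT hA.toLSl ![0, 0, c] ?_ hmo hqt
  refine ⟨?_, ?_⟩
  · have : sg (![0, 0, c] : V) = 0 := by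
      unfold sg
      simp
    rw [this]
    positivity
  · show |c - c| < H
    rw [sub_self, abs_zero]
    exact hH

end Pool.Agent.D0H33.AXF
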