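import Pool.Agent.D0H33.AXF.Wi

/-!
Project AXF: the term with the swirl in the equation of `OO`.
-/

set_option autoImplicit false

open MeasureTheory Set Metric Filter Topology
open scoped ContDiff
open H459R3.NS Pool.Agent.W268.NS Pool.Agent.Q67.VD

namespace Pool.Agent.D0H33.AXF

open Pool.Agent.Q85.CC Pool.Agent.Q85.CL Pool.Agent.TH305.AX Pool.Agent.Q67.AXI
open Pool.Agent.Q175.AX (cs_int sg_nn sg_cd GD_nn axis_ae Co_sub_Cy Co_meas Cy_compact cut_mem)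

lemma pow8 {p q : ℝ} (hp : 0 ≤ p) (hq : 0 ≤ q) : 8 * p ^ 7 * q ≤ (p + q) ^ 8 := by
  have h1 : (p + q) ^ 8 - 8 * p ^ 7 * q = p ^ 8 + 28 * p ^ 6 * q ^ 2 + 56 * p ^ 5 * q ^ 3
      + 70 * p ^ 4 * q ^ 4 + 56 * p ^ 3 * q ^ 5 + 28 * p ^ 2 * q ^ 6 + 8 * p * q ^ 7 + q ^ 8 := by
    ring
  have h2 : 0 ≤ (p + q) ^ 8 - 8 * p ^ 7 * q := by
    rw [h1]
    positivity
  linarith

lemma young8 {X C E D η a : ℝ} (hX : 0 ≤ X) (ha : 0 ≤ a) (hE : 0 ≤ E) (hD : 0 ≤ D) (hη : 0 < η)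
    (hC : 0 ≤ C) (h : X ^ 4 ≤ C * E * D ^ 7) : √(a * X) ≤ η * D + a ^ 4 * C / (8 * η ^ 7) * E := by
  have h1 : √(a * X) ^ 8 = a ^ 4 * X ^ 4 := by
    calc √(a * X) ^ 8 = (√(a * X) ^ 2) ^ 4 := by ring
      _ = (a * X) ^ 4 := by rw [Real.sq_sqrt (by positivity)]
      _ = _ := by ring
  have h2 : a ^ 4 * X ^ 4 ≤ a ^ 4 * (C * E * D ^ 7) := mul_le_mul_of_nonneg_left h (by positivity)
  have h3 := pow8 (p := η * D) (q := a ^ 4 * C / (8 * η ^ 7) * E) (by positivity) (by positivity)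
  have h4 : 8 * (η * D) ^ 7 * (a ^ 4 * C / (8 * η ^ 7) * E) = a ^ 4 * (C * E * D ^ 7) := by
    field_simp
  have h5 : √(a * X) ^ 8 ≤ (η * D + a ^ 4 * C / (8 * η ^ 7) * E) ^ 8 := by
    rw [h1]
    rw [h4] at h3
    exact h2.trans h3
  exact le_of_pow_le_pow_left₀ (by norm_num) (by positivity) h5

lemma wt0_nn (x : V) : 0 ≤ wt g0 x := Real.rpow_nonneg (sg_nn x) _

lemma wt0_pos {x : V} (hx : sg x ≠ 0) : 0 < wt g0 x :=
  Real.rpow_pos_of_pos (lt_of_le_of_ne (sg_nn x) (Ne.symm hx)) _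

lemma wt0_cont : Continuous (wt g0) := by
  unfold wt g0
  exact sg_cd.continuous.rpow_const fun x => Or.inr (by norm_num)

lemma wt0_le {x : V} (hx : sg x ≤ 1) : wt g0 x ≤ 1 := by
  unfold wt g0
  exact Real.rpow_le_one (sg_nn x) hx (by norm_num)

/-- The bilinear estimate with the weight. -/
lemma bil {c r h K₂ : ℝ} {W A P : V → ℝ} (hr : 0 ≤ r) (hW : Continuous W) (hA : Continuous A)
    (hP : Continuous P) (hAc : ∀ x, A x ≠ 0 → x ∈ Co c r h)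
    (iA : Integrable (fun x => (wt g0 x)⁻¹ * A x ^ 4))
    (iP : Integrable (fun x => (wt g0 x)⁻¹ * P x ^ 4))
    (hK : ∫ x in Co c r h, wt g0 x * W x ^ 2 ≤ K₂) :
    Integrable (fun x => |W x| * (|A x| * |P x|)) ∧ ∫ x, |W x| * (|A x| * |P x|) ≤
      √(K₂ / 2 * ((∫ x, (wt g0 x)⁻¹ * A x ^ 4) + ∫ x, (wt g0 x)⁻¹ * P x ^ 4)) := by
  have hq0 := wt0_nn
  have hqm : Measurable (wt g0) := wt0_cont.measurable
  have mCo : MeasurableSet (Co c r h) := Co_meas c r h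
  obtain ⟨F, hF⟩ : ∃ F : V → ℝ, F = (Co c r h).indicator (fun x => √(wt g0 x) * |W x|) := ⟨_, rfl⟩
  obtain ⟨G, hG⟩ : ∃ G : V → ℝ, G = fun x => √((wt g0 x)⁻¹) * (|A x| * |P x|) := ⟨_, rfl⟩
  have eF : ∀ x, (1 : ℝ) * F x ^ 2 = (Co c r h).indicator (fun x => wt g0 x * W x ^ 2) x := by
    intro x
    rw [one_mul, hF]
    by_cases hx : x ∈ Co c r h
    · rw [indicator_of_mem hx, indicator_of_mem hx, mul_pow, Real.sq_sqrt (hq0 x), sq_abs]
    · rw [indicator_of_notMem hx, indicator_of_notMem hx]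
      norm_num
  have eG : ∀ x, (1 : ℝ) * G x ^ 2 = (wt g0 x)⁻¹ * (A x ^ 2 * P x ^ 2) := by
    intro x
    rw [one_mul, hG]
    simp only []
    rw [mul_pow, Real.sq_sqrt (inv_nonneg.2 (hq0 x)), mul_pow, sq_abs, sq_abs]
  have hle : ∀ x, (wt g0 x)⁻¹ * (A x ^ 2 * P x ^ 2) ≤
      1 / 2 * ((wt g0 x)⁻¹ * A x ^ 4 + (wt g0 x)⁻¹ * P x ^ 4) := by
    intro x
    have h1 : A x ^ 2 * P x ^ 2 ≤ 1 / 2 * (A x ^ 4 + P x ^ 4) := by
      nlinarith [sq_nonneg (A x ^ 2 - P x ^ 2)]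
    have h2 := mul_le_mul_of_nonneg_left h1 (inv_nonneg.2 (hq0 x))
    linarith
  have iF : Integrable (fun x => (1 : ℝ) * F x ^ 2) := by
    have h1 : IntegrableOn (fun x => wt g0 x * W x ^ 2) (Co c r h) :=
      ((wt0_cont.mul (hW.pow 2)).continuousOn.integrableOn_compact (Cy_compact hr)).mono_set
        (Co_sub_Cy c r h)
    exact ((integrable_indicator_iff mCo).2 h1).congr (Eventually.of_forall fun x => (eF x).symm)
  have iG : Integrable (fun x => (1 : ℝ) * G x ^ 2) := by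
    have h1 : Integrable (fun x => (wt g0 x)⁻¹ * (A x ^ 2 * P x ^ 2)) := by
      refine ((iA.add iP).const_mul (1 / 2)).mono' ?_ (Eventually.of_forall fun x => ?_)
      · exact (hqm.inv.mul ((hA.measurable.pow_const 2).mul
          (hP.measurable.pow_const 2))).aestronglyMeasurable
      · rw [Real.norm_of_nonneg (mul_nonneg (inv_nonneg.2 (hq0 x)) (by positivity))]
        exact hle x
    exact h1.congr (Eventually.of_forall fun x => (eG x).symm)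
  have hFm : Measurable F := by
    rw [hF]
    exact (hqm.sqrt.mul hW.abs.measurable).indicator mCo
  have hGm : Measurable G := by
    rw [hG]
    exact hqm.inv.sqrt.mul (hA.abs.measurable.mul hP.abs.measurable)
  obtain ⟨c1, c2⟩ := cs_int (f := F) (g := G) (w := fun _ => 1) (fun _ => zero_le_one) iF iG
    ((measurable_const.mul (hFm.mul hGm)).aestronglyMeasurable)
  have hae : ∀ᵐ x : V, (1 : ℝ) * (F x * G x) = |W x| * (|A x| * |P x|) := by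
    filter_upwards [axis_ae] with x hx
    rw [one_mul, hF, hG]
    simp only []
    by_cases hc : x ∈ Co c r h
    · rw [indicator_of_mem hc]
      have h1 := wt0_pos hx
      have h2 : √(wt g0 x) * √((wt g0 x)⁻¹) = 1 := by
        rw [← Real.sqrt_mul h1.le, mul_inv_cancel₀ h1.ne', Real.sqrt_one]
      calc √(wt g0 x) * |W x| * (√((wt g0 x)⁻¹) * (|A x| * |P x|))
          = (√(wt g0 x) * √((wt g0 x)⁻¹)) * (|W x| * (|A x| * |P x|)) := by ring
        _ = _ := by rw [h2, one_mul]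
    · have h1 : A x = 0 := by
        by_contra h0
        exact hc (hAc x h0)
      rw [indicator_of_notMem hc, h1]
      simp
  refine ⟨c1.congr hae, ?_⟩
  rw [← integral_congr_ae hae]
  refine c2.trans (Real.sqrt_le_sqrt ?_)
  simp only [eF, eG]
  rw [integral_indicator mCo]
  have h3 : ∫ x, (wt g0 x)⁻¹ * (A x ^ 2 * P x ^ 2) ≤
      1 / 2 * ((∫ x, (wt g0 x)⁻¹ * A x ^ 4) + ∫ x, (wt g0 x)⁻¹ * P x ^ 4) := by
    rw [← integral_add iA iP, ← integral_const_mul]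
    refine integral_mono (iG.congr (Eventually.of_forall eG)) ((iA.add iP).const_mul (1 / 2)) ?_
    intro x
    exact hle x
  have h4 : 0 ≤ ∫ x in Co c r h, wt g0 x * W x ^ 2 :=
    integral_nonneg fun x => mul_nonneg (hq0 x) (sq_nonneg _)
  have h5 : 0 ≤ ∫ x, (wt g0 x)⁻¹ * (A x ^ 2 * P x ^ 2) :=
    integral_nonneg fun x => mul_nonneg (inv_nonneg.2 (hq0 x)) (by positivity)
  calc _ ≤ K₂ * (1 / 2 * ((∫ x, (wt g0 x)⁻¹ * A x ^ 4) + ∫ x, (wt g0 x)⁻¹ * P x ^ 4)) :=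
        mul_le_mul hK h3 h5 (h4.trans hK)
    _ = _ := by ring

theorem t2f (hAlg : StmAlg) (hWi : StmWi) : StmT2F := by
  intro K c r h r1 h1 K₂ η hr hr2 hK₂ hη
  obtain ⟨C, hC, hwi⟩ := hWi
  refine ⟨4 * ((K₂ / 2) ^ 4 * (16 * C) / (8 * (η / 4) ^ 7)), by positivity, ?_⟩
  intro v φ hv ha hφ hK
  obtain ⟨⟨sU, sW, sJ, sO⟩, -, -, hal⟩ := hAlg v hv ha
  have hφs := hφ.sm
  obtain ⟨A, hA⟩ : ∃ A : V → ℝ, A = fun y => φ y * JJ v y := ⟨_, rfl⟩
  obtain ⟨P, hP⟩ : ∃ P : V → ℝ, P = fun y => φ y * OO v y := ⟨_, rfl⟩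
  have sA : ContDiff ℝ ∞ A := by rw [hA]; exact hφs.mul sJ
  have sP : ContDiff ℝ ∞ P := by rw [hP]; exact hφs.mul sO
  have cA : HasCompactSupport A := by rw [hA]; exact hφ.cs.mul_right
  have cP : HasCompactSupport P := by rw [hP]; exact hφ.cs.mul_right
  have hsup : ∀ g : V → ℝ, ∀ x, φ x * g x ≠ 0 → x ∈ Co c r h := by
    intro g x hx
    have h2 : φ x ≠ 0 := fun h0 => hx (by rw [h0, zero_mul])
    exact cut_mem hφ h2
  have hsup2 : ∀ g : V → ℝ, ∀ x, φ x * g x ≠ 0 → sg x ≤ Real.exp (-2) := fun g x hx =>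
    (hsup g x hx).1.le.trans hr2
  obtain ⟨a1, a2⟩ := hwi A sA cA (by rw [hA]; exact hsup2 _)
  obtain ⟨p1, p2⟩ := hwi P sP cP (by rw [hP]; exact hsup2 _)
  obtain ⟨b1, b2⟩ := bil (c := c) (r := r) (h := h) (K₂ := K₂) hr.le sW.continuous sA.continuous
    sP.continuous (by rw [hA]; exact hsup _) a1 p1 hK
  have eA : ∀ x, A x ^ 2 = φ x ^ 2 * JJ v x ^ 2 := fun x => by rw [hA]; ring
  have eP : ∀ x, P x ^ 2 = φ x ^ 2 * OO v x ^ 2 := fun x => by rw [hP]; ring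
  simp only [eA] at a2
  simp only [eP] at p2
  obtain ⟨X1, hX1⟩ : ∃ X1 : ℝ, X1 = ∫ x, (wt g0 x)⁻¹ * A x ^ 4 := ⟨_, rfl⟩
  obtain ⟨X2, hX2⟩ : ∃ X2 : ℝ, X2 = ∫ x, (wt g0 x)⁻¹ * P x ^ 4 := ⟨_, rfl⟩
  obtain ⟨E1, hE1⟩ : ∃ E1 : ℝ, E1 = ∫ x, φ x ^ 2 * JJ v x ^ 2 := ⟨_, rfl⟩
  obtain ⟨E2, hE2⟩ : ∃ E2 : ℝ, E2 = ∫ x, φ x ^ 2 * OO v x ^ 2 := ⟨_, rfl⟩
  rw [← hA, ← hP, ← hE1, ← hE2]
  rw [← hX1, ← hE1] at a2
  rw [← hX2, ← hE2] at p2
  rw [← hX1, ← hX2] at b2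
  have D10 : 0 ≤ GD A := GD_nn A
  have D20 : 0 ≤ GD P := GD_nn P
  have E10 : 0 ≤ E1 := by rw [hE1]; exact integral_nonneg fun x => by positivity
  have E20 : 0 ≤ E2 := by rw [hE2]; exact integral_nonneg fun x => by positivity
  have X10 : 0 ≤ X1 := by
    rw [hX1]
    exact integral_nonneg fun x => mul_nonneg (inv_nonneg.2 (wt0_nn x)) (by positivity)
  have X20 : 0 ≤ X2 := by
    rw [hX2]
    exact integral_nonneg fun x => mul_nonneg (inv_nonneg.2 (wt0_nn x)) (by positivity)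
  have hX : (X1 + X2) ^ 4 ≤ 16 * C * (E1 + E2) * (GD A + GD P) ^ 7 := by
    have h2 : (X1 + X2) ^ 4 ≤ 8 * (X1 ^ 4 + X2 ^ 4) := by
      nlinarith [sq_nonneg (X1 - X2), sq_nonneg (X1 ^ 2 - X2 ^ 2), mul_nonneg X10 X20,
        sq_nonneg (X1 + X2), sq_nonneg ((X1 - X2) * (X1 + X2)), sq_nonneg ((X1 - X2) * (X1 - X2)),
        mul_nonneg (mul_nonneg X10 X20) (sq_nonneg (X1 - X2))]
    have h3 : X1 ^ 4 ≤ C * (E1 + E2) * (GD A + GD P) ^ 7 := by
      refine a2.trans ?_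
      have := pow_le_pow_left₀ D10 (by linarith : GD A ≤ GD A + GD P) 7
      exact mul_le_mul (mul_le_mul_of_nonneg_left (by linarith) hC.le) this (by positivity)
        (by positivity)
    have h4 : X2 ^ 4 ≤ C * (E1 + E2) * (GD A + GD P) ^ 7 := by
      refine p2.trans ?_
      have := pow_le_pow_left₀ D20 (by linarith : GD P ≤ GD A + GD P) 7
      exact mul_le_mul (mul_le_mul_of_nonneg_left (by linarith) hC.le) this (by positivity)
        (by positivity)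
    linarith
  have hy := young8 (η := η / 4) (a := K₂ / 2) (add_nonneg X10 X20) (by positivity)
    (add_nonneg E10 E20) (add_nonneg D10 D20) (by positivity) (by positivity) hX
  have hI : |∫ x, φ x ^ 2 * OO v x * (WW v x * JJ v x)| ≤ ∫ x, |WW v x| * (|A x| * |P x|) := by
    refine abs_integral_le_integral_abs.trans (le_of_eq ?_)
    refine integral_congr_ae (Eventually.of_forall fun x => ?_)
    simp only [hA, hP, abs_mul, abs_pow]
    ring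
  have := hI.trans (b2.trans hy)
  nlinarith [this]

end Pool.Agent.D0H33.AXF
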