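import Pool.Agent.D0H33.AXF.Defs
import Pool.Agent.Q261.AXQ.WbQ
import Pool.Agent.Q95.AXP.Yd

/-!
Project AXF: the weighted energy of `WW` and the circulation are bounded.
-/

set_option autoImplicit false

open MeasureTheory Set Metric Filter Topology
open scoped ContDiff
open H459R3.NS Pool.Agent.W268.NS Pool.Agent.Q67.VD

namespace Pool.Agent.D0H33.AXF

open Pool.Agent.Q85.CC Pool.Agent.Q85.CL Pool.Agent.TH305.AX Pool.Agent.Q67.AXI
open Pool.Agent.Q285.AXI (slice co_mono)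
open Pool.Agent.Q261.AXQ (gron2)
open Pool.Agent.Q111.AXI (ae_sg)

theorem w2 (hJnt : StmJnt) (hEqW : StmEqW) (hDtW : StmDtW) (hWe : StmWe) : StmW2 := by
  intro T E c R H K r h r1 h1 T₁ u p B φ hA hK hr1 hr1r hrR hr hh1 hh1h hhH hh hT₁ hT₁T hcut
    hout hBc hBi hB0 hQ
  obtain ⟨C, hC, hwe⟩ := hWe K c r h r1 h1 R H hK hr1 hr1r hrR hr hh1 hh1h hhH hh
  obtain ⟨-, j2, -, -⟩ := hJnt T u hA.smooth_u
  have hg0 : (0 : ℝ) < g0 := by norm_num [g0]
  have hr0 : 0 < r := hr1.trans hr1r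
  have hsub : Co c r h ⊆ Co c R H := co_mono hr0 hrR hhH
  have hI : ∀ t ∈ Ico T₁ T, t ∈ Ioo 0 T := fun t ht => ⟨hT₁.trans_le ht.1, ht.2⟩
  obtain ⟨-, hD⟩ := hDtW g0 T (fun t => WW (u t)) φ hg0 j2 hcut.sm hcut.cs
  have hwn : ∀ x : V, 0 ≤ wt g0 x := fun x => Real.rpow_nonneg (by unfold sg; positivity) _
  have hfin : volume (Ico T₁ T) ≠ ⊤ := by rw [Real.volume_Ico]; exact ENNReal.ofReal_ne_top
  have hbi : IntegrableOn (fun t => C * B t ^ 2 + C) (Ico T₁ T) := by
    have k1 : IntegrableOn (fun t => C * B t ^ 2) (Ico T₁ T) := hBi.const_mul C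
    have k2 : IntegrableOn (fun _ : ℝ => C) (Ico T₁ T) := integrableOn_const hfin
    exact k1.add k2
  obtain ⟨M, hM0, hM⟩ := gron2
    (Y := fun s => ∫ x, wt g0 x * (φ x ^ 2 * WW (u s) x ^ 2))
    (D := fun t => ∫ x, 2 * wt g0 x * φ x ^ 2 * WW (u t) x * deriv (fun s => WW (u s) x) t)
    (b := fun t => C * B t ^ 2 + C) (G := fun _ => 0) (k := fun _ => C) hT₁T
    ((continuousOn_const.mul (hBc.pow 2)).add continuousOn_const)
    hbi
    (fun t _ => by positivity) continuousOn_const (fun t _ => le_rfl)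
    (fun t _ => integral_nonneg fun x => mul_nonneg (hwn x) (by positivity))
    (fun t ht => hD t (hI t ht)) (fun t _ => by
      have : 0 ≤ C * B t ^ 2 := by positivity
      linarith)
    (fun t ht => by
      have ht0 := hI t ht
      have hu := slice hA.smooth_u ht0
      have h2 := hwe (B t) (u t) φ (hB0 t) hu (hA.axi t ht0) (hA.divfree t ht0) hcut
        (hout t ht) (hQ t ht)
      have h3 : ∫ x, 2 * wt g0 x * φ x ^ 2 * WW (u t) x * deriv (fun s => WW (u s) x) t
          = ∫ x, 2 * wt g0 x * φ x ^ 2 * WW (u t) x * (LL (WW (u t)) x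
            - W221.NS.adv (u t) (WW (u t)) x + -2 * UU (u t) x * WW (u t) x) := by
        refine integral_congr_ae ?_
        filter_upwards [ae_sg] with x hx
        by_cases h0 : φ x = 0
        · simp only [h0]
          ring
        · rw [(hEqW T E c R H u p hA t ht0 x (hsub (hcut.supp (subset_tsupport φ h0))) hx).deriv]
          ring
      have h4 : 0 ≤ ∫ x, wt g0 x * (φ x ^ 2 * WW (u t) x ^ 2) :=
        integral_nonneg fun x => mul_nonneg (hwn x) (by positivity)
      rw [h3]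
      have h5 : 0 ≤ C * ∫ x, wt g0 x * (φ x ^ 2 * WW (u t) x ^ 2) := by positivity
      linarith)
  exact ⟨M, hM0, fun t ht => (hM t ht).1⟩

theorem ci (hAlg : StmAlg) (hBar : Pool.Agent.Q67.AXI.StmBar) : StmCi := by
  intro T E c R H K r h T₁ u p hA hr hrR hr1 hh hhH hT₁ hT₁T hb
  have hI1 : T₁ ∈ Ioo 0 T := ⟨hT₁, hT₁T⟩
  have hs1 := slice hA.smooth_u hI1
  have hcc : IsCompact (Cy c r h) := Pool.Agent.Q95.AXP.cy_compact c hr
  obtain ⟨M₁, hM₁⟩ := hcc.exists_bound_of_continuousOn (sm_circ hs1).continuous.continuousOn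
  obtain ⟨C₁, hC₁⟩ : ∃ C₁ : ℝ, C₁ = 1 + |K| + |M₁| := ⟨_, rfl⟩
  have a1 := abs_nonneg K
  have a2 := abs_nonneg M₁
  have hC1 : 1 ≤ C₁ := by rw [hC₁]; linarith
  have key := hBar T E c R H r h T₁ T u p (fun t _ => C₁ + (t - T₁)) (fun _ _ => 1)
    (fun _ _ => 0) (fun _ _ => 0) hA hr hrR hh hhH hT₁ hT₁T le_rfl
    (by fun_prop)
    (fun t _ s _ => ⟨by simpa using ((hasDerivAt_id t).sub_const T₁).const_add C₁,
      hasDerivAt_const _ _, hasDerivAt_const _ _⟩)
    (fun t _ => contDiffOn_const)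
    (fun t ht s _ => by
      have := ht.1
      linarith)
    (fun T' _ A => ⟨1 / (|A| + 1), by positivity, fun t ht s hs hsd => by
      have h3 : A * s ≤ 1 := by
        rw [lt_div_iff₀ (by positivity)] at hsd
        have := hs.1
        nlinarith [le_abs_self A]
      have := ht.1
      linarith⟩)
    (fun t ht x hx _ hbd => by
      have h3 := hb t ht x hx hbd
      have ht0 : t ∈ Ioo 0 T := ⟨hT₁.trans_le ht.1, ht.2⟩
      obtain ⟨-, -, -, halg⟩ := hAlg (u t) (slice hA.smooth_u ht0) (hA.axi t ht0)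
      rw [(halg x).2.2.2.2.2.2.2.2.1, abs_mul, abs_of_nonneg (sg_nonneg x)]
      have h4 : sg x ≤ 1 := hx.1.trans (by nlinarith)
      have h5 : sg x * |WW (u t) x| ≤ 1 * |K| :=
        mul_le_mul h4 (h3.trans (le_abs_self K)) (abs_nonneg _) zero_le_one
      have := ht.1
      linarith)
    (fun x hx _ => by
      have h3 := hM₁ x hx
      rw [Real.norm_eq_abs] at h3
      have := le_abs_self M₁
      linarith)
    (fun t ht x hx hs σ _ _ _ _ _ => by simp)
  refine ⟨C₁ + (T - T₁), by linarith, fun t ht x hx => ?_⟩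
  rcases (sg_nonneg x).eq_or_lt with h0 | h0
  · have h3 : circ (u t) x = 0 := by
      have e : x 0 ^ 2 + x 1 ^ 2 = 0 := h0.symm
      have e0 : x 0 = 0 := by nlinarith [sq_nonneg (x 0), sq_nonneg (x 1)]
      have e1 : x 1 = 0 := by nlinarith [sq_nonneg (x 0), sq_nonneg (x 1)]
      unfold circ
      rw [e0, e1]
      ring
    rw [h3, abs_zero]
    linarith
  · have h3 := key t ht x hx h0
    have := ht.2
    linarith

end Pool.Agent.D0H33.AXF
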