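import Pool.Agent.D0H33.AXF.Defs
import Pool.Agent.Q261.AXQ.WbQ

/-!
Project AXF: the bounds at all times.
-/

set_option autoImplicit false

open MeasureTheory Set Metric Filter Topology
open scoped ContDiff
open H459R3.NS Pool.Agent.W268.NS Pool.Agent.Q67.VD

namespace Pool.Agent.D0H33.AXF

open Pool.Agent.Q85.CC Pool.Agent.Q85.CL Pool.Agent.TH305.AX Pool.Agent.Q67.AXI
open Pool.Agent.Q285.AXI (slice co_mono)
open Pool.Agent.Q177.AXI (window)
open Pool.Agent.Q261.AXQ (gron2)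

theorem wbf (hAlg : StmAlg) (hJnt : StmJnt) (hU : Pool.Agent.Q67.AXI.StmU)
    (hDt : Pool.Agent.Q67.AXI.StmDt) (hSm : StmSm) (hYd : StmYdF) : StmWbF := by
  intro T E c R H K r h r1 h1 T₁ C₀ K₂ u p φ hA hK hr1 hr1r hrR hr2 hh1 hh1h hhH hh hT₁ hT₁T
    hC₀ hK₂ hcut hout hcirc
  have hr0 : 0 < r := hr1.trans hr1r
  have hr : r ≤ 1 := by
    have h3 : Real.exp (-2) ≤ 1 := Real.exp_le_one_iff.2 (by norm_num)
    nlinarith
  have hsub : Co c r h ⊆ Co c R H := co_mono hr0 hrR hhH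
  have hsub1 : Cy c r1 h1 ⊆ Co c r h := fun x hx =>
    ⟨hx.1.trans_lt (by nlinarith), hx.2.trans_lt hh1h⟩
  have hI : ∀ t ∈ Ico T₁ T, t ∈ Ioo 0 T := fun t ht => ⟨hT₁.trans_le ht.1, ht.2⟩
  obtain ⟨j1, j2, j3, j4⟩ := hJnt T u hA.smooth_u
  obtain ⟨G, hG⟩ : ∃ G : ℝ → ℝ, G = fun t => GD (fun x => φ x * OO (u t) x) := ⟨_, rfl⟩
  have hGc : ContinuousOn G (Ico T₁ T) := by
    rw [hG]
    exact (hDt T (fun t => OO (u t)) φ j4 hcut.sm hcut.cs).1.mono hI
  have hGn : ∀ f : V → ℝ, 0 ≤ GD f := fun f => integral_nonneg fun x =>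
    Finset.sum_nonneg fun i _ => sq_nonneg _
  have hG0 : ∀ t, 0 ≤ G t := by
    intro t
    rw [hG]
    exact hGn _
  obtain ⟨Y, hY⟩ : ∃ Y : ℝ → ℝ, Y = fun s => (∫ x, φ x ^ 2 * JJ (u s) x ^ 2)
      + ∫ x, φ x ^ 2 * OO (u s) x ^ 2 := ⟨_, rfl⟩
  have nJ : ∀ t, 0 ≤ ∫ x, φ x ^ 2 * JJ (u t) x ^ 2 := fun t =>
    integral_nonneg fun x => by positivity
  have nO : ∀ t, 0 ≤ ∫ x, φ x ^ 2 * OO (u t) x ^ 2 := fun t =>
    integral_nonneg fun x => by positivity
  have hY0 : ∀ t, 0 ≤ Y t := by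
    intro t
    rw [hY]
    exact add_nonneg (nJ t) (nO t)
  obtain ⟨C, hC, hyd⟩ := hYd T E c R H K r h r1 h1 T₁ C₀ K₂ u p φ hA hK hr1 hr1r hrR hr2 hh1 hh1h
    hhH hh hT₁ hT₁T hC₀ hK₂ hcut hout hcirc
  choose! D hD1 hD2 using hyd
  obtain ⟨M, hM0, hM⟩ := gron2 (Y := Y) (D := D) (b := fun _ => C) (G := G) (k := fun _ => C)
    hT₁T continuousOn_const
    (integrableOn_const (by rw [Real.volume_Ico]; exact ENNReal.ofReal_ne_top))
    (fun t _ => hC) hGc (fun t _ => hG0 t) (fun t _ => hY0 t)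
    (fun t ht => by rw [hY]; exact hD1 t ht) (fun t _ => le_rfl)
    (fun t ht => by
      have := hD2 t ht
      rw [hG, hY]
      exact this)
  -- the bounds of `UU`
  obtain ⟨C₂, hC₂, hU'⟩ := hU K c r h r1 h1 hK hr1 hr1r hr hh1 hh1h hh
  have hUt : ∀ t ∈ Ico T₁ T, _ := fun t ht => hU' (u t) φ (slice hA.smooth_u (hI t ht))
    (hA.axi t (hI t ht)) (fun x hx => hA.divfree t (hI t ht) x (hsub hx)) hcut (hout t ht)
  -- the window
  obtain ⟨g, hg⟩ : ∃ g : ℝ → ℝ, g = fun t => √(C₂ * (1 + G t)) := ⟨_, rfl⟩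
  have hgc : ContinuousOn g (Ico T₁ T) := by
    rw [hg]
    exact (continuousOn_const.mul (continuousOn_const.add hGc)).sqrt
  have hg2 : ∀ t, g t ^ 2 = C₂ * (1 + G t) := by
    intro t
    rw [hg]
    exact Real.sq_sqrt (mul_nonneg hC₂ (by linarith [hG0 t]))
  obtain ⟨τ, hτ, hwin⟩ := window (T₁ := T₁) (T := T) (N := C₂ * ((T - T₁) + M)) (g := g)
    (by
      apply mul_nonneg hC₂
      linarith) hgc (by
      intro t ht
      simp only [hg2]
      have hGI : IntervalIntegrable G volume T₁ t := by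
        rw [intervalIntegrable_iff_integrableOn_Icc_of_le ht.1]
        exact (hGc.mono fun s hs => ⟨hs.1, hs.2.trans_lt ht.2⟩).integrableOn_compact isCompact_Icc
      rw [intervalIntegral.integral_const_mul]
      apply mul_le_mul_of_nonneg_left _ hC₂
      rw [intervalIntegral.integral_add (by simp) hGI, intervalIntegral.integral_const,
        smul_eq_mul, mul_one]
      have := (hM t ht).2
      linarith [ht.2])
  -- smoothing
  obtain ⟨C₃, hC₃, hsm⟩ := hSm T E c R H r1 h1 T₁ K C₀ u p hA hr1 (hr1r.trans hrR) hh1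
    (hh1h.trans hhH) hT₁ hT₁T (by
      intro t ht x hx
      refine ⟨(hcirc t ht).1 x (hsub1 hx), fun hbd => ?_⟩
      have hxo : x ∈ Out c r h r1 h1 := by
        refine ⟨⟨(hsub1 hx).1.le, (hsub1 hx).2.le⟩, ?_⟩
        rcases hbd with hbd | hbd
        · exact Or.inl hbd.ge
        · exact Or.inr hbd.ge
      exact (hout t ht x hxo).2.2.1)
  have hT0 := hτ.1
  have n1 : 0 ≤ C₃ / τ := div_nonneg hC₃ hτ.1.le
  have n2 : 0 ≤ C₂ * (1 + M) := by positivity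
  refine ⟨C₃ / τ + C₂ * (1 + M) + M, by positivity, fun t ht => ?_⟩
  have hO2 : ∫ x, φ x ^ 2 * OO (u t) x ^ 2 ≤ M := by
    have := (hM t ht).1
    rw [hY] at this
    simp only at this
    linarith [nJ t]
  have h8 : C₂ * (1 + ∫ x, φ x ^ 2 * OO (u t) x ^ 2) ≤ C₂ * (1 + M) :=
    mul_le_mul_of_nonneg_left (by linarith) hC₂
  refine ⟨fun x hx => ?_, by linarith, ?_, ?_⟩
  · have h2 := hsm τ hτ t ht g (hgc.mono fun s hs => ⟨hs.1, hs.2.trans_lt ht.2⟩)
      (fun s hs y hy => by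
        have hs' : s ∈ Ico T₁ T := ⟨hs.1, hs.2.trans_lt ht.2⟩
        have h3 := (hUt s hs').2.2.1 y
        rw [hcut.one y hy, one_mul] at h3
        apply Real.abs_le_sqrt at h3
        rw [hg, hG]
        exact h3)
      (hwin t ht) x hx
    linarith
  · have := (hUt t ht).2.1
    linarith
  · have := (hUt t ht).2.2.2
    linarith

end Pool.Agent.D0H33.AXF
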