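import Pool.Agent.D0H33.AXF.Fl
import Pool.Agent.Q261.AXQ.YdQ
import Pool.Agent.Q98.AXI.EllW

/-!
Project AXF: the weighted energy inequality for `WW` at one time.
-/

set_option autoImplicit false

open MeasureTheory Set Metric Filter Topology
open scoped ContDiff
open H459R3.NS Pool.Agent.W268.NS Pool.Agent.Q67.VD

namespace Pool.Agent.D0H33.AXF

open Pool.Agent.Q85.CC Pool.Agent.Q85.CL Pool.Agent.TH305.AX Pool.Agent.Q67.AXI
open Pool.Agent.W583.MD (sm_pd pd_mul')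
open Pool.Agent.Q149.AXI
open Pool.Agent.Q98.AXI (SC J J_int J_pd2)

/-! ### The primitive -/

lemma QQ_par (v : V → V) (b : ℝ) (x : V) :
    QQ v b x = ∫ l in (0 : ℝ)..1, (x 2 - b) * UU v ![x 0, x 1, b + (x 2 - b) * l] := by
  rw [intervalIntegral.integral_const_mul,
    intervalIntegral.mul_integral_comp_add_mul (f := fun s => UU v ![x 0, x 1, s]),
    show b + (x 2 - b) * 0 = b by ring, show b + (x 2 - b) * 1 = x 2 by ring]
  rfl

lemma QQ_sm {v : V → V} (hU : ContDiff ℝ ∞ (UU v)) (b : ℝ) : ContDiff ℝ ∞ (QQ v b) := by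
  have e : QQ v b = fun x => ∫ l in (0 : ℝ)..1,
      (x 2 - b) * UU v ![x 0, x 1, b + (x 2 - b) * l] := funext (QQ_par v b)
  rw [e]
  refine Pool.Agent.W585.contDiff_param
    (F := fun (x : V) (l : ℝ) => (x 2 - b) * UU v ![x 0, x 1, b + (x 2 - b) * l]) ?_ 0 1
  have h1 : ContDiff ℝ ∞ (fun p : V × ℝ => (![p.1 0, p.1 1, b + (p.1 2 - b) * p.2] : V)) := by
    rw [contDiff_pi]
    intro i
    fin_cases i
    · show ContDiff ℝ ∞ (fun p : V × ℝ => p.1 0)
      exact (sm_crd 0).comp contDiff_fst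
    · show ContDiff ℝ ∞ (fun p : V × ℝ => p.1 1)
      exact (sm_crd 1).comp contDiff_fst
    · show ContDiff ℝ ∞ (fun p : V × ℝ => b + (p.1 2 - b) * p.2)
      exact contDiff_const.add ((((sm_crd 2).comp contDiff_fst).sub contDiff_const).mul
        contDiff_snd)
  exact (((sm_crd 2).comp contDiff_fst).sub contDiff_const).mul (hU.comp h1)

lemma QQ_pd {v : V → V} (hU : ContDiff ℝ ∞ (UU v)) (b : ℝ) (x : V) :
    pd 2 (QQ v b) x = UU v x := by
  have ex : (![x 0, x 1, x 2] : V) = x := by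
    funext i
    fin_cases i <;> rfl
  have h1 := ln_hd (QQ_sm hU b) (x 0) (x 1) (x 2)
  have h2 : (fun s => QQ v b ![x 0, x 1, s]) = fun s => ∫ τ in b..s, UU v ![x 0, x 1, τ] := by
    funext s
    rfl
  rw [h2, ex] at h1
  have h3 := ((ln_cont hU.continuous (x 0) (x 1)).integral_hasStrictDerivAt b (x 2)).hasDerivAt
  have h4 := h1.unique h3
  rw [h4, ex]

lemma young_p {X Y Z : ℝ} (hX : 0 ≤ X) (hY : 0 ≤ Y) (hZ : 0 ≤ Z) :
    176 / 25 * ((17 / 50 * X + Z) * Y) ≤ 2 * Y ^ 2 + 456 / 625 * X ^ 2 + 500 * Z ^ 2 := by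
  nlinarith [sq_nonneg (33 / 20 * Y - X), sq_nonneg (Y - 704 / 5 * Z), mul_nonneg hX hY,
    mul_nonneg hY hZ, sq_nonneg X, sq_nonneg Z]

/-- The integral with the radial velocity. -/
lemma rad_I {c r h b : ℝ} {v : V → V} {F : V → ℝ} (hU : ContDiff ℝ ∞ (UU v))
    (hF : ContDiff ℝ ∞ F) (hc : HasCompactSupport F) (hs : ∀ x, x ∉ Co c r h → F x = 0)
    (hb : 0 ≤ b)
    (hQ : ∀ x ∈ Co c r h, 0 < sg x → |QQ v (c - h) x| ≤ 17 / 50 / √(sg x) + b) :
    88 / 25 * |∫ x, wt g0 x * (UU v x * F x ^ 2)|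
      ≤ 2 * GW g0 F + 456 / 625 * PW g0 F + 500 * b ^ 2 * ∫ x, wt g0 x * F x ^ 2 := by
  have hg0 : (0 : ℝ) < g0 := by norm_num [g0]
  have hg1 : g0 < (1 : ℝ) := by norm_num [g0]
  have hgm : (-1 : ℝ) < g0 := by linarith
  have sQ := QQ_sm hU (c - h)
  have sF : SC F := ⟨hF, hc⟩
  have sG : SC (fun x => QQ v (c - h) x * (F x * F x)) := (sF.mul sF).ml sQ
  have hJ := J_pd2 hgm sG
  have sD : SC (pd 2 F) := sF.pd 2
  have hpd : ∀ x, pd 2 (fun x => QQ v (c - h) x * (F x * F x)) x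
      = UU v x * F x ^ 2 + 2 * (QQ v (c - h) x * (F x * pd 2 F x)) := by
    intro x
    rw [pd_mul' sQ (hF.mul hF), pd_mul' hF hF, QQ_pd hU]
    ring
  have i1 : Integrable (fun x => wt g0 x * (UU v x * F x ^ 2)) := by
    have := ((sF.mul sF).ml hU).int hgm
    refine this.congr (Eventually.of_forall fun x => ?_)
    show sg x ^ g0 * (UU v x * (F x * F x)) = wt g0 x * (UU v x * F x ^ 2)
    unfold wt
    ring
  have i2 : Integrable (fun x => wt g0 x * (2 * (QQ v (c - h) x * (F x * pd 2 F x)))) := by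
    have := (((sF.mul sD).ml sQ).cm 2).int hgm
    exact this
  have hI : ∫ x, wt g0 x * (UU v x * F x ^ 2)
      = -∫ x, wt g0 x * (2 * (QQ v (c - h) x * (F x * pd 2 F x))) := by
    have h1 : J g0 (pd 2 (fun x => QQ v (c - h) x * (F x * F x)))
        = (∫ x, wt g0 x * (UU v x * F x ^ 2))
          + ∫ x, wt g0 x * (2 * (QQ v (c - h) x * (F x * pd 2 F x))) := by
      rw [← integral_add i1 i2]
      unfold J
      refine integral_congr_ae (Eventually.of_forall fun x => ?_)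
      simp only [hpd]
      unfold wt
      ring
    rw [h1] at hJ
    linarith
  rw [hI, abs_neg]
  have iG : Integrable (fun x => wt g0 x * gr2 F x) := by
    have h1 : SC (fun x => (pd 0 F x * pd 0 F x + pd 1 F x * pd 1 F x) + pd 2 F x * pd 2 F x) :=
      (((sF.pd 0).mul (sF.pd 0)).add ((sF.pd 1).mul (sF.pd 1))).add ((sF.pd 2).mul (sF.pd 2))
    refine (h1.int hgm).congr (Eventually.of_forall fun x => ?_)
    show sg x ^ g0 * _ = wt g0 x * gr2 F x
    unfold wt gr2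
    rw [Fin.sum_univ_three]
    ring
  have cF2 : HasCompactSupport (fun x => F x ^ 2) :=
    hc.comp_left (g := fun y : ℝ => y ^ 2) (by simp)
  have iP : Integrable (fun x => wt g0 x * (F x ^ 2 / sg x)) :=
    int_div hg0 hg1 (hF.continuous.pow 2) cF2
  have iE : Integrable (fun x => wt g0 x * F x ^ 2) := int_wt hg0 (hF.continuous.pow 2) cF2
  have e1 : 2 * GW g0 F + 456 / 625 * PW g0 F + 500 * b ^ 2 * ∫ x, wt g0 x * F x ^ 2
      = ∫ x, (2 * (wt g0 x * gr2 F x) + 456 / 625 * (wt g0 x * (F x ^ 2 / sg x))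
        + 500 * b ^ 2 * (wt g0 x * F x ^ 2)) := by
    have h1 := integral_add ((iG.const_mul 2).add (iP.const_mul (456 / 625)))
      (iE.const_mul (500 * b ^ 2))
    have h2 := integral_add (iG.const_mul 2) (iP.const_mul (456 / 625))
    simp only [Pi.add_apply] at h1
    rw [h1, h2, integral_const_mul, integral_const_mul, integral_const_mul]
    rfl
  have e2 : 88 / 25 * |∫ x, wt g0 x * (2 * (QQ v (c - h) x * (F x * pd 2 F x)))|
      = |∫ x, 88 / 25 * (wt g0 x * (2 * (QQ v (c - h) x * (F x * pd 2 F x))))| := by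
    rw [integral_const_mul, abs_mul, abs_of_pos (by norm_num : (0 : ℝ) < 88 / 25)]
  rw [e1, e2, ← Real.norm_eq_abs]
  refine norm_integral_le_of_norm_le (((iG.const_mul 2).add (iP.const_mul (456 / 625))).add
    (iE.const_mul (500 * b ^ 2))) ?_
  filter_upwards [ae_sg] with x hx
  have hs0 : 0 < sg x := lt_of_le_of_ne (sg_nonneg x) (Ne.symm hx)
  have hw := wt_nonneg g0 x
  by_cases hxC : x ∈ Co c r h
  swap
  · rw [hs x hxC, Real.norm_eq_abs]
    have h1 : 88 / 25 * (wt g0 x * (2 * (QQ v (c - h) x * (0 * pd 2 F x)))) = 0 := by ring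
    rw [h1, abs_zero]
    have h2 : 0 ≤ gr2 F x := gr2_nonneg _ _
    have : 0 ≤ wt g0 x * gr2 F x := mul_nonneg hw h2
    have h3 : 2 * (wt g0 x * gr2 F x) + 456 / 625 * (wt g0 x * ((0 : ℝ) ^ 2 / sg x))
      + 500 * b ^ 2 * (wt g0 x * (0 : ℝ) ^ 2) = 2 * (wt g0 x * gr2 F x) := by ring
    rw [h3]
    linarith
  have hq := hQ x hxC hs0
  obtain ⟨s, hs⟩ : ∃ s : ℝ, s = √(sg x) := ⟨_, rfl⟩
  have hsp : 0 < s := by rw [hs]; exact Real.sqrt_pos.2 hs0
  have hs2 : s ^ 2 = sg x := by rw [hs]; exact Real.sq_sqrt hs0.le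
  rw [← hs] at hq
  have hD : pd 2 F x ^ 2 ≤ gr2 F x := by
    unfold gr2
    rw [Fin.sum_univ_three]
    nlinarith [sq_nonneg (pd 0 F x), sq_nonneg (pd 1 F x)]
  have h4 := young_p (X := |F x| / s) (Y := |pd 2 F x|) (Z := b * |F x|) (by positivity)
    (by positivity) (by positivity)
  have h5 : |QQ v (c - h) x| * |F x| ≤ 17 / 50 * (|F x| / s) + b * |F x| := by
    calc _ ≤ (17 / 50 / s + b) * |F x| := mul_le_mul_of_nonneg_right hq (abs_nonneg _)
      _ = _ := by ring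
  have h6 : (|F x| / s) ^ 2 = F x ^ 2 / sg x := by rw [div_pow, sq_abs, hs2]
  have h7 : (b * |F x|) ^ 2 = b ^ 2 * F x ^ 2 := by rw [mul_pow, sq_abs]
  rw [h6, h7, sq_abs] at h4
  rw [Real.norm_eq_abs]
  have h8 : |88 / 25 * (wt g0 x * (2 * (QQ v (c - h) x * (F x * pd 2 F x))))|
      = wt g0 x * (176 / 25 * ((|QQ v (c - h) x| * |F x|) * |pd 2 F x|)) := by
    rw [abs_mul, abs_mul, abs_mul, abs_mul, abs_mul, abs_of_nonneg hw,
      abs_of_pos (by norm_num : (0 : ℝ) < 88 / 25), abs_two]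
    ring
  rw [h8]
  calc wt g0 x * (176 / 25 * ((|QQ v (c - h) x| * |F x|) * |pd 2 F x|))
      ≤ wt g0 x * (176 / 25 * ((17 / 50 * (|F x| / s) + b * |F x|) * |pd 2 F x|)) := by
        refine mul_le_mul_of_nonneg_left (mul_le_mul_of_nonneg_left
          (mul_le_mul_of_nonneg_right h5 (abs_nonneg _)) (by norm_num)) hw
    _ ≤ wt g0 x * (2 * gr2 F x + 456 / 625 * (F x ^ 2 / sg x) + 500 * (b ^ 2 * F x ^ 2)) := by
        refine mul_le_mul_of_nonneg_left ?_ hw
        linarith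
    _ = _ := by ring

/-! ### The remainder -/

lemma rem_b {γ K c r h r1 h1 : ℝ} {v : V → V} {f φ : V → ℝ} (h0 : 0 < γ) (hγ1 : γ < 1)
    (hK : 0 ≤ K) (hr : r ≤ 1) (hr0 : 0 ≤ r) (hcut : Cut c r h r1 h1 K φ)
    (hf : ∀ x ∈ Out c r h r1 h1, |f x| ≤ K) (hvb : ∀ x ∈ Out c r h r1 h1, ∀ i, |v x i| ≤ K) :
    |∫ x, wt γ x * f x ^ 2 * (2 * gr2 φ x + W221.NS.adv v (fun y => φ y ^ 2) x
      - (2 - 2 * γ) / sg x * RR (fun y => φ y ^ 2) x)|
      ≤ (12 * K ^ 4 + 4 * K ^ 3) * volume.real (Cy c r h) := by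
  have sφ := hcut.sm
  have cφ := hcut.cs
  obtain ⟨R, hR⟩ := Cy_bdd (c := c) (r := r) (h := h) hr0
  have hCym : MeasurableSet (Cy c r h) := (Cy_closed c r h).measurableSet
  have hVf : volume (Cy c r h) < ⊤ := (measure_mono hR).trans_lt measure_closedBall_lt_top
  have hCoCy : ∀ x ∈ Co c r h, x ∈ Cy c r h := fun x hx => ⟨hx.1.le, hx.2.le⟩
  have iCy : Integrable ((Cy c r h).indicator (fun _ : V => (12 * K ^ 4 + 4 * K ^ 3))) := by
    rw [integrable_indicator_iff hCym]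
    exact integrableOn_const hVf.ne
  have e6 : (12 * K ^ 4 + 4 * K ^ 3) * volume.real (Cy c r h)
      = ∫ x, (Cy c r h).indicator (fun _ : V => (12 * K ^ 4 + 4 * K ^ 3)) x := by
    rw [integral_indicator hCym]
    simp [Measure.real, mul_comm]
  rw [e6, ← Real.norm_eq_abs]
  refine norm_integral_le_of_norm_le iCy (Eventually.of_forall fun x => ?_)
  rw [Real.norm_eq_abs]
  have hpd2 : ∀ i, pd i (fun y => φ y ^ 2) x = 2 * φ x * pd i φ x := by
    intro i
    have e : (fun y => φ y ^ 2) = fun y => φ y * φ y := by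
      funext y
      ring
    rw [e, pd_mul' sφ sφ]
    ring
  have hpos : 0 ≤ (Cy c r h).indicator (fun _ : V => (12 * K ^ 4 + 4 * K ^ 3)) x :=
    indicator_nonneg (fun _ _ => by positivity) x
  have hzero : (∀ i, pd i φ x = 0) → |wt γ x * f x ^ 2 * (2 * gr2 φ x +
      W221.NS.adv v (fun y => φ y ^ 2) x - (2 - 2 * γ) / sg x * RR (fun y => φ y ^ 2) x)|
      ≤ (Cy c r h).indicator (fun _ : V => (12 * K ^ 4 + 4 * K ^ 3)) x := by
    intro hz
    have e7 : gr2 φ x = 0 := by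
      unfold gr2
      simp [hz]
    have e8 : W221.NS.adv v (fun y => φ y ^ 2) x = 0 := by
      unfold W221.NS.adv
      simp [hpd2, hz]
    have e9 : RR (fun y => φ y ^ 2) x = 0 := by
      unfold RR
      rw [hpd2, hpd2, hz, hz]
      ring
    rw [e7, e8, e9]
    simpa using hpos
  by_cases hx : x ∈ tsupport φ
  swap
  · exact hzero fun i => pd_off hx i
  have hxCo := hcut.supp hx
  have hxCy := hCoCy x hxCo
  by_cases hx2 : x ∈ Cy c r1 h1
  · apply hzero
    intro i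
    apply pd_zero_of_max
    intro y
    rw [hcut.one x hx2]
    exact hcut.le y
  have hxO : x ∈ Out c r h r1 h1 := by
    refine ⟨hxCy, ?_⟩
    by_contra hcon
    push Not at hcon
    exact hx2 ⟨hcon.1.le, hcon.2.le⟩
  rw [indicator_of_mem hxCy]
  obtain ⟨bφ, -, bR⟩ := hcut.bd x
  have bf : f x ^ 2 ≤ K ^ 2 := by
    rw [← sq_abs]
    exact pow_le_pow_left₀ (abs_nonneg _) (hf x hxO) 2
  have hsg1 : sg x ≤ 1 := by
    have h3 : sg x ≤ r ^ 2 := hxCy.1
    nlinarith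
  have hw1 : wt γ x ≤ 1 := Real.rpow_le_one (sg_nonneg x) hsg1 h0.le
  have hw0 := wt_nonneg γ x
  have hφ0 := hcut.nn x
  have hφ1 := hcut.le x
  have b1 : |2 * gr2 φ x| ≤ 6 * K ^ 2 := by
    have : ∀ i, pd i φ x ^ 2 ≤ K ^ 2 := fun i => by
      rw [← sq_abs]
      exact pow_le_pow_left₀ (abs_nonneg _) (bφ i) 2
    rw [abs_of_nonneg (mul_nonneg (by norm_num) (gr2_nonneg _ _))]
    unfold gr2
    rw [Fin.sum_univ_three]
    linarith [this 0, this 1, this 2]
  have b2 : |W221.NS.adv v (fun y => φ y ^ 2) x| ≤ 6 * K ^ 2 := by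
    unfold W221.NS.adv
    calc _ ≤ ∑ j, |v x j * pd j (fun y => φ y ^ 2) x| := Finset.abs_sum_le_sum_abs _ _
      _ ≤ ∑ _j : Fin 3, 2 * K ^ 2 := by
          refine Finset.sum_le_sum fun j _ => ?_
          rw [hpd2, abs_mul, abs_mul, abs_mul, abs_of_nonneg hφ0, abs_two]
          calc |v x j| * (2 * φ x * |pd j φ x|) ≤ K * (2 * 1 * K) := by
                have := hvb x hxO j
                have := bφ j
                gcongr
            _ = 2 * K ^ 2 := by ring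
      _ = 6 * K ^ 2 := by
          simp
          ring
  have b3 : |(2 - 2 * γ) / sg x * RR (fun y => φ y ^ 2) x| ≤ 4 * K := by
    have e10 : RR (fun y => φ y ^ 2) x = 2 * φ x * RR φ x := by
      unfold RR
      rw [hpd2, hpd2]
      ring
    rw [e10]
    rcases (sg_nonneg x).eq_or_lt with hs | hs
    · rw [← hs, div_zero, zero_mul, abs_zero]
      positivity
    · rw [abs_mul, abs_div, abs_of_pos hs, abs_of_pos (by linarith : 0 < 2 - 2 * γ), abs_mul,
        abs_mul, abs_two, abs_of_nonneg hφ0]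
      calc (2 - 2 * γ) / sg x * (2 * φ x * |RR φ x|)
          ≤ 2 / sg x * (2 * 1 * (K * sg x)) := by
            gcongr
            linarith
        _ = 4 * K := by
            field_simp
            ring
  have b4 : |2 * gr2 φ x + W221.NS.adv v (fun y => φ y ^ 2) x
      - (2 - 2 * γ) / sg x * RR (fun y => φ y ^ 2) x| ≤ 12 * K ^ 2 + 4 * K := by
    have := abs_sub (2 * gr2 φ x + W221.NS.adv v (fun y => φ y ^ 2) x)
      ((2 - 2 * γ) / sg x * RR (fun y => φ y ^ 2) x)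
    have := abs_add_le (2 * gr2 φ x) (W221.NS.adv v (fun y => φ y ^ 2) x)
    linarith
  rw [abs_mul, abs_mul, abs_of_nonneg hw0, abs_of_nonneg (sq_nonneg _)]
  calc wt γ x * f x ^ 2 * _ ≤ 1 * K ^ 2 * (12 * K ^ 2 + 4 * K) := by
        gcongr
    _ = 12 * K ^ 4 + 4 * K ^ 3 := by ring
theorem we (hAlg : StmAlg) (hEn : StmEnW) : StmWe := by
  intro K c r h r1 h1 R H hK hr1 hr hrR hr' hh1 hh hhH hh'
  have hg0 : (0 : ℝ) < g0 := by norm_num [g0]
  have hg1 : g0 < (1 : ℝ) := by norm_num [g0]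
  have hr0 : 0 ≤ r := (hr1.trans hr).le
  refine ⟨500 + (12 * K ^ 4 + 4 * K ^ 3) * volume.real (Cy c r h), by positivity,
    fun b v φ hb hv hax hdf hcut hO hQ => ?_⟩
  obtain ⟨⟨sU, sW, -, -⟩, -, -, hA⟩ := hAlg v hv hax
  have hCo : Co c r h ⊆ Co c R H := fun x hx => ⟨hx.1.trans_le (by nlinarith), hx.2.trans hhH⟩
  have hd : DFO (Co c r h) v := fun x hx => hdf x (hCo hx)
  have sS : ContDiff ℝ ∞ (fun x => -2 * UU v x * WW v x) := (contDiff_const.mul sU).mul sW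
  obtain ⟨-, -, e3⟩ := hEn g0 hg0 hg1 (Co c r h) v (WW v) (fun x => -2 * UU v x * WW v x) φ
    (Co_open c r h) hv hd sW sS hcut.sm hcut.cs hcut.supp
  rw [e3]
  have sF : ContDiff ℝ ∞ (fun x => φ x * WW v x) := hcut.sm.mul sW
  have cF : HasCompactSupport (fun x => φ x * WW v x) := hcut.cs.mul_right
  have hF0 : ∀ x, x ∉ Co c r h → φ x * WW v x = 0 := fun x hx => by
    rw [image_eq_zero_of_notMem_tsupport fun h => hx (hcut.supp h), zero_mul]
  have hI := rad_I sU sF cF hF0 hb hQ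
  have hRem := (le_abs_self _).trans (rem_b (f := WW v) (v := v) hg0 hg1 hK hr' hr0 hcut
    (fun x hx => (hO x hx).2.2.1) fun x hx => (hO x hx).1)
  have e4 : ∫ x, wt g0 x * (rad v x / sg x) * (φ x * WW v x) ^ 2
      = ∫ x, wt g0 x * (UU v x * (φ x * WW v x) ^ 2) := by
    refine integral_congr_ae ?_
    filter_upwards [ae_sg] with x hx
    have h2 : rad v x = sg x * UU v x := (hA x).2.2.2.2.2.2.2.2.2.1
    rw [h2, mul_div_cancel_left₀ _ hx]
    ring
  have e5 : ∫ x, wt g0 x * φ x ^ 2 * WW v x * (-2 * UU v x * WW v x)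
      = -2 * ∫ x, wt g0 x * (UU v x * (φ x * WW v x) ^ 2) := by
    rw [← integral_const_mul]
    refine integral_congr_ae (Eventually.of_forall fun x => ?_)
    simp only
    ring
  have e6 : ∫ x, wt g0 x * (φ x * WW v x) ^ 2 = ∫ x, wt g0 x * (φ x ^ 2 * WW v x ^ 2) := by
    refine integral_congr_ae (Eventually.of_forall fun x => ?_)
    simp only [mul_pow]
  rw [e4, e5]
  rw [e6] at hI
  obtain ⟨I, hIe⟩ : ∃ I : ℝ, I = ∫ x, wt g0 x * (UU v x * (φ x * WW v x) ^ 2) := ⟨_, rfl⟩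
  rw [← hIe] at hI ⊢
  have hI2 := neg_abs_le I
  have hE0 : 0 ≤ ∫ x, wt g0 x * (φ x ^ 2 * WW v x ^ 2) :=
    integral_nonneg fun x => mul_nonneg (wt_nonneg g0 x) (by positivity)
  have h9 : (12 * K ^ 4 + 4 * K ^ 3) * volume.real (Cy c r h) * b ^ 2
      * (∫ x, wt g0 x * (φ x ^ 2 * WW v x ^ 2)) ≥ 0 := by positivity
  have hg : 4 * g0 * (1 - g0) = 456 / 625 := by norm_num [g0]
  have hg2 : 2 * g0 = 12 / 25 := by norm_num [g0]
  have p1 : 4 * g0 * (1 - g0) * PW g0 (fun x => φ x * WW v x)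
      = 456 / 625 * PW g0 (fun x => φ x * WW v x) := by rw [hg]
  have p2 : 2 * g0 * I = 12 / 25 * I := by rw [hg2]
  have p3 : 0 ≤ (12 * K ^ 4 + 4 * K ^ 3) * volume.real (Cy c r h) := by positivity
  rw [p1, p2]
  linarith

end Pool.Agent.D0H33.AXF
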