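import Pool.Agent.D0H33.AXF.Defs
import Pool.Agent.Q95.AXP.Yd

/-!
Project AXF: the differential inequality of the energy of `JJ` and `OO`.
-/

set_option autoImplicit false

open MeasureTheory Set Metric Filter Topology
open scoped ContDiff
open H459R3.NS Pool.Agent.W268.NS Pool.Agent.Q67.VD

namespace Pool.Agent.D0H33.AXF

open Pool.Agent.Q85.CC Pool.Agent.Q85.CL Pool.Agent.TH305.AX Pool.Agent.Q67.AXI
open Pool.Agent.Q111.AXI
open Pool.Agent.Q95.AXP (en_gen rem_le SS_sm)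

lemma alg_yd {A B C₁ C₂ J2 O2 R D1 D2 X1 X2 : ℝ} (hA : 0 ≤ A) (hB : 0 ≤ B) (hC1 : 0 ≤ C₁)
    (hC2 : 0 ≤ C₂) (hJ2 : 0 ≤ J2) (hO2 : 0 ≤ O2) (hR : 0 ≤ R)
    (hX1 : 2 * X1 ≤ 1 / 8 * A + 1 / 4 * B + C₁ * (1 + O2))
    (hX2 : 4 * X2 ≤ 1 / 4 * (A + B) + C₂ * (J2 + O2))
    (hD1 : D1 ≤ -2 * A + 2 * X1 + R) (hD2 : D2 ≤ -2 * B + 4 * X2 + R) :
    D1 + D2 ≤ -B + (C₁ + C₂ + 2 * R) * (J2 + O2) + (C₁ + C₂ + 2 * R) := by
  have h1 : 0 ≤ C₁ * J2 := by positivity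
  have h2 : 0 ≤ R * (J2 + O2) := by positivity
  nlinarith

theorem ydf : StmAlg → StmEqJ → StmEqO → StmJnt → StmDt → Pool.Agent.Q67.AXI.StmEn →
    StmT1F → StmT2F → StmYdF := by
  intro hAlg hEqJ hEqO hJnt hDt hEn hT1 hT2 T E c R H K r h r1 h1 T₁ C₀ K₂ u p φ
    hsol hK hr1 hr1r hrR hr2 hh1 hh1h hhH hh hT₁ hT₁T hC₀ hK₂ hcut hout hcirc
  have hr : 0 < r := hr1.trans hr1r
  obtain ⟨C₁, hC₁, hT1⟩ := hT1 K c r h r1 h1 C₀ K₂ (1 / 4) hK hr1 hr1r hr2 hh1 hh1h hh hC₀ hK₂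
    (by norm_num)
  obtain ⟨C₂, hC₂, hT2⟩ := hT2 K c r h r1 h1 K₂ (1 / 4) hr hr2 hK₂ (by norm_num)
  obtain ⟨Rm, hRm⟩ : ∃ Rm : ℝ, Rm = volume.real (Cy c r h) * (K ^ 2 * (12 * K ^ 2 + 4 * K)) :=
    ⟨_, rfl⟩
  have hRm0 : 0 ≤ Rm := by rw [hRm]; positivity
  have hsub : Co c r h ⊆ Co c R H := by
    rintro x ⟨hx1, hx2⟩
    refine ⟨hx1.trans ?_, hx2.trans hhH⟩
    nlinarith
  refine ⟨C₁ + C₂ + 2 * Rm, by positivity, fun t ht => ?_⟩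
  have ht0 : t ∈ Ioo 0 T := ⟨hT₁.trans_le ht.1, ht.2⟩
  have hu := sm_slice hsol.smooth_u ht0
  have hax := hsol.axi t ht0
  obtain ⟨⟨hUs, hWs, hJs, hOs⟩, -⟩ := hAlg (u t) hu hax
  obtain ⟨-, -, hJJ, hJO⟩ := hJnt T u hsol.smooth_u
  obtain ⟨-, hDJ⟩ := hDt T (fun t => JJ (u t)) φ hJJ hcut.sm hcut.cs
  obtain ⟨-, hDO⟩ := hDt T (fun t => OO (u t)) φ hJO hcut.sm hcut.cs
  refine ⟨_, (hDJ t ht0).add (hDO t ht0), ?_⟩
  have hsupp : tsupport φ ⊆ Co c R H := hcut.supp.trans hsub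
  have hcl : DFO (Co c r h) (u t) := fun x hx => hsol.divfree t ht0 x (hsub hx)
  have x1 := hT1 (u t) φ hu hax hcl hcut (hout t ht) (hcirc t ht).1 (hcirc t ht).2
  have x2 := hT2 (u t) φ hu hax hcut (hcirc t ht).2
  have d1 := en_gen hEn hsol.openO hcut.sm hcut.cs hsupp (f := fun s => JJ (u s)) (τ := t)
    (v := u t) (S := SS (u t)) hu (hsol.divfree t ht0) hJs (SS_sm hUs hWs)
    (fun x hx hx0 => (hEqJ T E c R H u p hsol t ht0 x hx hx0).deriv)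
  have hSO : ContDiff ℝ ∞ (fun x => -2 * WW (u t) x * JJ (u t) x) :=
    (contDiff_const.mul hWs).mul hJs
  have d2 := en_gen hEn hsol.openO hcut.sm hcut.cs hsupp (f := fun s => OO (u s)) (τ := t)
    (v := u t) (S := fun x => -2 * WW (u t) x * JJ (u t) x) hu (hsol.divfree t ht0) hOs hSO
    (fun x hx hx0 => by
      rw [(hEqO T E c R H u p hsol t ht0 x hx hx0).deriv]
      ring)
  have r1' := rem_le (v := u t) (f := JJ (u t)) hcut hK hr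
    (fun x hx => ⟨(hout t ht x hx).2.2.2.1, (hout t ht x hx).1⟩)
  have r2' := rem_le (v := u t) (f := OO (u t)) hcut hK hr
    (fun x hx => ⟨(hout t ht x hx).2.2.2.2.1, (hout t ht x hx).1⟩)
  rw [← hRm] at r1' r2'
  have hint : ∀ x, φ x ^ 2 * OO (u t) x * (-2 * WW (u t) x * JJ (u t) x) =
      -2 * (φ x ^ 2 * OO (u t) x * (WW (u t) x * JJ (u t) x)) := fun x => by ring
  simp only [hint, integral_const_mul] at d2
  have hGD : ∀ f : V → ℝ, 0 ≤ GD f := fun f => integral_nonneg fun x => gr2_nonneg _ x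
  refine alg_yd (A := GD (fun x => φ x * JJ (u t) x)) (B := GD (fun x => φ x * OO (u t) x))
    (X1 := |∫ x, φ x ^ 2 * JJ (u t) x * SS (u t) x|)
    (X2 := |∫ x, φ x ^ 2 * OO (u t) x * (WW (u t) x * JJ (u t) x)|)
    (hGD _) (hGD _) hC₁ hC₂ (integral_nonneg fun x => by positivity)
    (integral_nonneg fun x => by positivity) hRm0 x1 x2 ?_ ?_
  · refine d1.trans ?_
    have := le_abs_self (∫ x, φ x ^ 2 * JJ (u t) x * SS (u t) x)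
    linarith
  · refine d2.trans ?_
    have := neg_abs_le (∫ x, φ x ^ 2 * OO (u t) x * (WW (u t) x * JJ (u t) x))
    linarith

end Pool.Agent.D0H33.AXF
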