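import Pool.Agent.Q67.AXI.Defs2

/-!
Project AXF (helper33): axisymmetric solutions of the Navier-Stokes equations whose radial flux
through small cylinders around the axis is small in one direction. No condition on the swirl.
-/

set_option autoImplicit false

open MeasureTheory Set Metric Filter Topology
open scoped ContDiff
open H459R3.NS Pool.Agent.W268.NS Pool.Agent.Q67.VD

namespace Pool.Agent.D0H33.AXF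

open Pool.Agent.Q85.CC Pool.Agent.Q85.CL Pool.Agent.TH305.AX Pool.Agent.Q67.AXI

/-- The exponent of the weight. -/
noncomputable def g0 : ℝ := 6 / 25

/-- The primitive of `UU v` in the direction of the axis. -/
noncomputable def QQ (v : V → V) (b : ℝ) (x : V) : ℝ := ∫ s in b..(x 2), UU v ![x 0, x 1, s]

/-- The outward flux of the radial velocity through the bands of the cylinder of radius `ρ`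
between the heights `a` and `b` is at most `2 π ρ e`, or at least `-2 π ρ e`. -/
def Flx (v : V → V) (a b e ρ : ℝ) : Prop :=
  (∀ z₁ z₂ : ℝ, a ≤ z₁ → z₁ ≤ z₂ → z₂ ≤ b → ∫ s in z₁..z₂, v ![ρ, 0, s] 0 ≤ e) ∨
    ∀ z₁ z₂ : ℝ, a ≤ z₁ → z₁ ≤ z₂ → z₂ ≤ b → -e ≤ ∫ s in z₁..z₂, v ![ρ, 0, s] 0

/-- AXF-WI. -/
def StmWi : Prop := ∃ C : ℝ, 0 < C ∧ ∀ f : V → ℝ, ContDiff ℝ ∞ f → HasCompactSupport f →
  (∀ x, f x ≠ 0 → sg x ≤ Real.exp (-2)) →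
    Integrable (fun x => (wt g0 x)⁻¹ * f x ^ 4) ∧
    (∫ x, (wt g0 x)⁻¹ * f x ^ 4) ^ 4 ≤ C * (∫ x, f x ^ 2) * GD f ^ 7

/-- AXF-T2. -/
def StmT2F : Prop := ∀ K c r h r1 h1 K₂ η : ℝ, 0 < r → r ^ 2 ≤ Real.exp (-2) → 0 ≤ K₂ → 0 < η →
  ∃ C : ℝ, 0 ≤ C ∧ ∀ (v : V → V) (φ : V → ℝ), ContDiff ℝ ∞ v → Axi v → Cut c r h r1 h1 K φ →
    ∫ x in Co c r h, wt g0 x * WW v x ^ 2 ≤ K₂ →
      4 * |∫ x, φ x ^ 2 * OO v x * (WW v x * JJ v x)|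
        ≤ η * (GD (fun x => φ x * JJ v x) + GD (fun x => φ x * OO v x))
          + C * ((∫ x, φ x ^ 2 * JJ v x ^ 2) + ∫ x, φ x ^ 2 * OO v x ^ 2)

/-- AXF-T1. -/
def StmT1F : Prop := ∀ K c r h r1 h1 C₀ K₂ η : ℝ, 0 ≤ K → 0 < r1 → r1 < r →
  r ^ 2 ≤ Real.exp (-2) → 0 < h1 → h1 < h → h ≤ 1 → 0 ≤ C₀ → 0 ≤ K₂ → 0 < η →
  ∃ C : ℝ, 0 ≤ C ∧ ∀ (v : V → V) (φ : V → ℝ), ContDiff ℝ ∞ v → Axi v →
    DFO (Co c r h) v → Cut c r h r1 h1 K φ → (∀ x ∈ Out c r h r1 h1, BdA K v x) →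
    (∀ x ∈ Co c r h, |circ v x| ≤ C₀) → ∫ x in Co c r h, wt g0 x * WW v x ^ 2 ≤ K₂ →
      2 * |∫ x, φ x ^ 2 * JJ v x * SS v x|
        ≤ 1 / 8 * GD (fun x => φ x * JJ v x) + η * GD (fun x => φ x * OO v x)
          + C * (1 + ∫ x, φ x ^ 2 * OO v x ^ 2)

/-- AXF-FLX. The bound of the primitive of `UU`. -/
def StmFl : Prop := ∀ (c r h R H K e b : ℝ) (v : V → V), 0 < r → r < R → 0 < h → h < H →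
  0 ≤ K → 0 ≤ e → 0 ≤ b → ContDiff ℝ ∞ v → Axi v → DFO (Co c R H) v →
  (∀ x ∈ Cy c r h, |x 2 - c| = h → |v x 2| ≤ K) →
  (∀ ρ ∈ Ioo 0 r, Flx v (c - h) (c + h) (e + b * ρ) ρ) →
    ∀ x ∈ Co c r h, 0 < sg x → |QQ v (c - h) x| ≤ e / √(sg x) + (b + K)

/-- AXF-WE. The energy inequality with weight for `WW`, at one time. -/
def StmWe : Prop := ∀ K c r h r1 h1 R H : ℝ, 0 ≤ K → 0 < r1 → r1 < r → r < R → r ≤ 1 → 0 < h1 →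
  h1 < h → h < H → h ≤ 1 → ∃ C : ℝ, 0 ≤ C ∧ ∀ (b : ℝ) (v : V → V) (φ : V → ℝ), 0 ≤ b →
    ContDiff ℝ ∞ v → Axi v → DFO (Co c R H) v → Cut c r h r1 h1 K φ →
    (∀ x ∈ Out c r h r1 h1, BdA K v x) →
    (∀ x ∈ Co c r h, 0 < sg x → |QQ v (c - h) x| ≤ 17 / 50 / √(sg x) + b) →
      ∫ x, 2 * wt g0 x * φ x ^ 2 * WW v x
          * (LL (WW v) x - W221.NS.adv v (WW v) x + -2 * UU v x * WW v x)
        ≤ C + C * b ^ 2 * ∫ x, wt g0 x * (φ x ^ 2 * WW v x ^ 2)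

/-- AXF-W2. The weighted energy of `WW` is bounded. -/
def StmW2 : Prop := ∀ (T E c R H K r h r1 h1 T₁ : ℝ) (u : ℝ → V → V) (p : ℝ → V → ℝ) (B : ℝ → ℝ)
  (φ : V → ℝ), AxL T E c R H u p → 0 ≤ K → 0 < r1 → r1 < r → r < R → r ≤ 1 →
  0 < h1 → h1 < h → h < H → h ≤ 1 → 0 < T₁ → T₁ < T → Cut c r h r1 h1 K φ →
  (∀ t ∈ Ico T₁ T, ∀ x ∈ Out c r h r1 h1, BdA K (u t) x) →
  ContinuousOn B (Ico T₁ T) → IntegrableOn (fun t => B t ^ 2) (Ico T₁ T) → (∀ t, 0 ≤ B t) →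
  (∀ t ∈ Ico T₁ T, ∀ x ∈ Co c r h, 0 < sg x →
    |QQ (u t) (c - h) x| ≤ 17 / 50 / √(sg x) + B t) →
    ∃ M : ℝ, 0 ≤ M ∧ ∀ t ∈ Ico T₁ T, ∫ x, wt g0 x * (φ x ^ 2 * WW (u t) x ^ 2) ≤ M

/-- AXF-YD. The differential inequality. -/
def StmYdF : Prop := ∀ (T E c R H K r h r1 h1 T₁ C₀ K₂ : ℝ) (u : ℝ → V → V) (p : ℝ → V → ℝ)
  (φ : V → ℝ), AxL T E c R H u p → 0 ≤ K → 0 < r1 → r1 < r → r < R → r ^ 2 ≤ Real.exp (-2) →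
  0 < h1 → h1 < h → h < H → h ≤ 1 → 0 < T₁ → T₁ < T → 0 ≤ C₀ → 0 ≤ K₂ → Cut c r h r1 h1 K φ →
  (∀ t ∈ Ico T₁ T, ∀ x ∈ Out c r h r1 h1, BdA K (u t) x) →
  (∀ t ∈ Ico T₁ T, (∀ x ∈ Co c r h, |circ (u t) x| ≤ C₀) ∧
    ∫ x in Co c r h, wt g0 x * WW (u t) x ^ 2 ≤ K₂) →
    ∃ C : ℝ, 0 ≤ C ∧ ∀ t ∈ Ico T₁ T, ∃ D' : ℝ,
      HasDerivAt (fun s => (∫ x, φ x ^ 2 * JJ (u s) x ^ 2) + ∫ x, φ x ^ 2 * OO (u s) x ^ 2) D' t ∧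
      D' ≤ -GD (fun x => φ x * OO (u t) x)
        + C * ((∫ x, φ x ^ 2 * JJ (u t) x ^ 2) + ∫ x, φ x ^ 2 * OO (u t) x ^ 2) + C

/-- AXF-CI. The circulation is bounded. -/
def StmCi : Prop := ∀ (T E c R H K r h T₁ : ℝ) (u : ℝ → V → V) (p : ℝ → V → ℝ),
  AxL T E c R H u p → 0 < r → r < R → r < 1 → 0 < h → h < H → 0 < T₁ → T₁ < T →
  (∀ t ∈ Ico T₁ T, ∀ x ∈ Cy c r h, (sg x = r ^ 2 ∨ |x 2 - c| = h) → |WW (u t) x| ≤ K) →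
    ∃ C₀ : ℝ, 0 ≤ C₀ ∧ ∀ t ∈ Ico T₁ T, ∀ x ∈ Cy c r h, |circ (u t) x| ≤ C₀

/-- AXF-WB. The bounds at all times. -/
def StmWbF : Prop := ∀ (T E c R H K r h r1 h1 T₁ C₀ K₂ : ℝ) (u : ℝ → V → V) (p : ℝ → V → ℝ)
  (φ : V → ℝ), AxL T E c R H u p → 0 ≤ K → 0 < r1 → r1 < r → r < R → r ^ 2 ≤ Real.exp (-2) →
  0 < h1 → h1 < h → h < H → h ≤ 1 → 0 < T₁ → T₁ < T → 0 ≤ C₀ → 0 ≤ K₂ → Cut c r h r1 h1 K φ →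
  (∀ t ∈ Ico T₁ T, ∀ x ∈ Out c r h r1 h1, BdA K (u t) x) →
  (∀ t ∈ Ico T₁ T, (∀ x ∈ Co c r h, |circ (u t) x| ≤ C₀) ∧
    ∫ x in Co c r h, wt g0 x * WW (u t) x ^ 2 ≤ K₂) →
    ∃ K' : ℝ, 0 ≤ K' ∧ ∀ t ∈ Ico T₁ T, (∀ x ∈ Cy c r1 h1, |WW (u t) x| ≤ K') ∧
      (∫ x, φ x ^ 2 * OO (u t) x ^ 2) ≤ K' ∧
      GD (fun x => φ x * UU (u t) x) ≤ K' ∧ ∫ x, (φ x * UU (u t) x) ^ 2 ≤ K'

/-- AXF-MAIN. -/
def StmMainF : Prop := ∀ (T E c R H T₀ : ℝ) (u : ℝ → V → V) (p : ℝ → V → ℝ) (B : ℝ → ℝ),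
  0 < T → 0 < R → 0 < H → AxL T E c R H u p → T₀ < T →
  ContinuousOn B (Ioo 0 T) → IntegrableOn (fun t => B t ^ 2) (Ioo 0 T) → (∀ t, 0 ≤ B t) →
  (∀ t ∈ Ioo 0 T, T₀ < t → ∀ ρ ∈ Ioo 0 R, Flx (u t) (c - H) (c + H) (1 / 3 + B t * ρ) ρ) →
    Rg T u ![0, 0, c]

end Pool.Agent.D0H33.AXF
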