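import Pool.Agent.Q67.AXI.All2
import Pool.Agent.D0H33.AXF.T2
import Pool.Agent.D0H33.AXF.Fl
import Pool.Agent.D0H33.AXF.We
import Pool.Agent.D0H33.AXF.YdF
import Pool.Agent.D0H33.AXF.WbF
import Pool.Agent.D0H33.AXF.W2
import Pool.Agent.D0H33.AXF.MainF
import Pool.Agent.D0H33.AXF.Fin
import Pool.Agent.D0H65.AXF.T1F

/-!
Project AXF: all the hypotheses are discharged.
-/

set_option autoImplicit false

namespace Pool.Agent.D0H33.AXF

open Pool.Agent.Q67.AXI

theorem hWi : StmWi := wi hHar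
theorem hT2F : StmT2F := t2f hAlg hWi
theorem hT1F : StmT1F := Pool.Agent.D0H65.AXF.t1f hAlg hU hWi
theorem hFl : StmFl := fl hAAs hAlg
theorem hWe : StmWe := we hAlg hEnW
theorem hYdF : StmYdF := ydf hAlg hEqJ hEqO hJnt hDt hEn hT1F hT2F
theorem hWbF : StmWbF := wbf hAlg hJnt hU hDt hSm hYdF
theorem hW2 : StmW2 := w2 hJnt hEqW hDtW hWe
theorem hCi : StmCi := ci hAlg hBar
theorem hMainF : StmMainF := mainf hGd hCut hFin hMo hReg hAlg hFl hCi hW2 hWbF

end Pool.Agent.D0H33.AXF
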