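import Pool.Agent.D0H33.AXF.MainM

/-!
Project AXF: radial functions on the small cylinders, and the Morrey bound from a flux threshold
with a Morrey bound.
-/

set_option autoImplicit false

open MeasureTheory Set Metric Filter Topology
open scoped ContDiff ENNReal
open H459R3.NS Pool.Agent.W268.NS Pool.Agent.Q67.VD

namespace Pool.Agent.D0H33.AXF

open Pool.Agent.Q85.CC Pool.Agent.Q85.CL Pool.Agent.TH305.AX Pool.Agent.Q67.AXI

/-- The planar factor. -/
noncomputable def plf (g : ℝ → ℝ≥0∞) (s : ℝ) (p : ℝ × ℝ) : ℝ≥0∞ :=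
  if p.1 ^ 2 + p.2 ^ 2 < s ^ 2 then g (√(p.1 ^ 2 + p.2 ^ 2)) else 0

theorem plf_meas {g : ℝ → ℝ≥0∞} (hg : Measurable g) (s : ℝ) : Measurable (plf g s) := by
  unfold plf
  refine Measurable.ite ?_ (hg.comp (by fun_prop)) measurable_const
  exact measurableSet_lt (by fun_prop) measurable_const

theorem plf_int {g : ℝ → ℝ≥0∞} (hg : Measurable g) {s : ℝ} (hs : 0 < s) :
    ∫⁻ p : ℝ × ℝ, plf g s p ≤
      (∫⁻ r in Ioo 0 s, ENNReal.ofReal r * g r) * ENNReal.ofReal (2 * Real.pi) := by
  have hp := Real.pi_pos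
  rw [← lintegral_comp_polarCoord_symm]
  have h1 : ∀ p ∈ polarCoord.target, ENNReal.ofReal p.1 • plf g s (polarCoord.symm p) ≤
      (Ioo 0 s).indicator (fun r => ENNReal.ofReal r * g r) p.1 * 1 := by
    intro p hp'
    rw [polarCoord_target] at hp'
    have hp1 : 0 < p.1 := hp'.1
    have e1 : (polarCoord.symm p).1 ^ 2 + (polarCoord.symm p).2 ^ 2 = p.1 ^ 2 := by
      rw [polarCoord_symm_apply]
      have := Real.sin_sq_add_cos_sq p.2
      simp only
      have h : (p.1 * Real.cos p.2) ^ 2 + (p.1 * Real.sin p.2) ^ 2 =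
        p.1 ^ 2 * (Real.sin p.2 ^ 2 + Real.cos p.2 ^ 2) := by ring
      rw [h, this, mul_one]
    unfold plf
    rw [e1, Real.sqrt_sq hp1.le, smul_eq_mul, mul_one]
    split_ifs with h
    · have h2 : p.1 < s := lt_of_pow_lt_pow_left₀ 2 hs.le h
      rw [indicator_of_mem (show p.1 ∈ Ioo 0 s from ⟨hp1, h2⟩)]
    · rw [mul_zero]
      exact zero_le
  refine (setLIntegral_mono_ae' polarCoord.open_target.measurableSet
    (Eventually.of_forall fun p hp => h1 p hp)).trans ?_
  have hm : Measurable (fun r => ENNReal.ofReal r * g r) :=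
    (ENNReal.measurable_ofReal).mul hg
  rw [polarCoord_target, Measure.volume_eq_prod, ← Measure.prod_restrict]
  rw [lintegral_prod_mul (hm.indicator measurableSet_Ioo).aemeasurable aemeasurable_const]
  have h2 : ∫⁻ r in Ioi (0 : ℝ), (Ioo 0 s).indicator (fun r => ENNReal.ofReal r * g r) r ≤
      ∫⁻ r in Ioo 0 s, ENNReal.ofReal r * g r := by
    refine (setLIntegral_le_lintegral _ _).trans ?_
    rw [lintegral_indicator measurableSet_Ioo]
  have h3 : ∫⁻ _θ in Ioo (-Real.pi) Real.pi, (1 : ℝ≥0∞) = ENNReal.ofReal (2 * Real.pi) := by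
    rw [setLIntegral_const, Real.volume_Ioo, one_mul]
    congr 1
    ring
  rw [h3]
  exact mul_le_mul_left h2 _

theorem co_radial {g : ℝ → ℝ≥0∞} (hg : Measurable g) (c : ℝ) {s : ℝ} (hs : 0 < s) :
    ∫⁻ x in Co c s s, g (√(sg x)) ≤
      ENNReal.ofReal (2 * s) *
        ((∫⁻ r in Ioo 0 s, ENNReal.ofReal r * g r) * ENNReal.ofReal (2 * Real.pi)) := by
  have hCo : MeasurableSet (Co c s s) := by
    unfold Co
    have hm : Measurable (fun x : V => sg x) := by
      unfold sg
      fun_prop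
    have h2 : Measurable (fun x : V => x 2) := measurable_pi_apply (2 : Fin 3)
    have h3 : Measurable (fun x : V => |x 2 - c|) := (h2.sub_const c).abs
    exact (measurableSet_lt hm measurable_const).inter (measurableSet_lt h3 measurable_const)
  rw [← lintegral_indicator hCo]
  have e1 : ∀ x : V, (Co c s s).indicator (fun x => g (√(sg x))) x =
      (fun p : ℝ × (Fin 2 → ℝ) => (Ioo (c - s) (c + s)).indicator (fun _ => (1 : ℝ≥0∞)) p.1 *
        plf g s (MeasurableEquiv.finTwoArrow p.2))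
        (MeasurableEquiv.piFinSuccAbove (fun _ => ℝ) (2 : Fin 3) x) := by
    intro x
    show _ = (Ioo (c - s) (c + s)).indicator (fun _ => (1 : ℝ≥0∞)) (x 2) * plf g s (x 0, x 1)
    unfold plf
    have hsg : sg x = x 0 ^ 2 + x 1 ^ 2 := rfl
    by_cases h1 : x 0 ^ 2 + x 1 ^ 2 < s ^ 2
    · by_cases h2 : |x 2 - c| < s
      · have h3 : x 2 ∈ Ioo (c - s) (c + s) := by
          rw [abs_lt] at h2
          exact ⟨by linarith [h2.1], by linarith [h2.2]⟩
        rw [indicator_of_mem (show x ∈ Co c s s from ⟨h1, h2⟩), indicator_of_mem h3, if_pos h1,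
          one_mul, hsg]
      · have h3 : x 2 ∉ Ioo (c - s) (c + s) := by
          intro h4
          apply h2
          rw [abs_lt]
          exact ⟨by linarith [h4.1], by linarith [h4.2]⟩
        rw [indicator_of_notMem (show x ∉ Co c s s from fun h => h2 h.2), indicator_of_notMem h3,
          zero_mul]
    · rw [indicator_of_notMem (show x ∉ Co c s s from fun h => h1 h.1), if_neg h1, mul_zero]
  have hAx : Measurable ((Ioo (c - s) (c + s)).indicator (fun _ : ℝ => (1 : ℝ≥0∞))) :=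
    measurable_const.indicator measurableSet_Ioo
  have hPl : Measurable (fun w : Fin 2 → ℝ => plf g s (MeasurableEquiv.finTwoArrow w)) :=
    (plf_meas hg s).comp MeasurableEquiv.finTwoArrow.measurable
  rw [lintegral_congr e1, (volume_preserving_piFinSuccAbove (fun _ => ℝ) (2 : Fin 3)).lintegral_comp
    (f := fun p : ℝ × (Fin 2 → ℝ) => (Ioo (c - s) (c + s)).indicator (fun _ => (1 : ℝ≥0∞)) p.1 *
      plf g s (MeasurableEquiv.finTwoArrow p.2))
    ((hAx.comp measurable_fst).mul (hPl.comp measurable_snd)), Measure.volume_eq_prod]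
  rw [lintegral_prod_mul (f := (Ioo (c - s) (c + s)).indicator (fun _ => (1 : ℝ≥0∞)))
    (g := fun w : Fin 2 → ℝ => plf g s (MeasurableEquiv.finTwoArrow w))
    hAx.aemeasurable hPl.aemeasurable,
    (volume_preserving_finTwoArrow ℝ).lintegral_comp (plf_meas hg s)]
  have h1 : ∫⁻ z, (Ioo (c - s) (c + s)).indicator (fun _ : ℝ => (1 : ℝ≥0∞)) z
      = ENNReal.ofReal (2 * s) := by
    rw [lintegral_indicator measurableSet_Ioo, setLIntegral_const, Real.volume_Ioo, one_mul]
    congr 1
    ring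
  rw [h1]
  exact mul_le_mul' le_rfl (plf_int hg hs)

/-- The Morrey bound. -/
lemma mor_bdE {f : V → ℝ} {e : ℝ → ℝ} {c' s K M : ℝ} (hs : 0 < s) (hK : 0 ≤ K)
    (hM : 0 ≤ M) (hf : Continuous f)
    (he : Measurable e) (he0 : ∀ r, 0 ≤ e r) (hI : IntegrableOn (fun r => e r ^ 6 * r) (Ioo 0 s))
    (hIM : ∫ r in Ioo 0 s, e r ^ 6 * r ≤ M * s ^ 2)
    (h : ∀ x ∈ Co c' s s, 0 < sg x → √(sg x) * |f x| ≤ e (√(sg x)) + K) :
    ∫ x in Co c' s s, sg x ^ 3 * f x ^ 6 ≤ 32 * (4 * Real.pi * M + 8 * K ^ 6) * s ^ 3 := by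
  have hp := Real.pi_pos
  have hv := Co_vol c' s hs
  have hsgc : Continuous fun x : V => sg x := by
    unfold sg
    fun_prop
  have hCo : MeasurableSet (Co c' s s) := by
    unfold Co
    have h2 : Measurable (fun x : V => x 2) := measurable_pi_apply (2 : Fin 3)
    have h3 : Measurable (fun x : V => |x 2 - c'|) := (h2.sub_const c').abs
    exact (measurableSet_lt hsgc.measurable measurable_const).inter
      (measurableSet_lt h3 measurable_const)
  have hcont : Continuous fun x : V => sg x ^ 3 * f x ^ 6 := (hsgc.pow 3).mul (hf.pow 6)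
  have h0 : ∀ x : V, 0 ≤ sg x ^ 3 * f x ^ 6 := fun x => by
    have := sg_nonneg x
    positivity
  rw [integral_eq_lintegral_of_nonneg_ae (ae_of_all _ h0) hcont.aestronglyMeasurable]
  refine ENNReal.toReal_le_of_le_ofReal (by positivity) ?_
  have hg : Measurable fun r : ℝ => ENNReal.ofReal (32 * e r ^ 6) :=
    ENNReal.measurable_ofReal.comp ((he.pow_const 6).const_mul 32)
  have h1 : ∀ x ∈ Co c' s s, ENNReal.ofReal (sg x ^ 3 * f x ^ 6) ≤
      ENNReal.ofReal (32 * e (√(sg x)) ^ 6) + ENNReal.ofReal (32 * K ^ 6) := by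
    intro x hx
    rw [← ENNReal.ofReal_add (by positivity) (by positivity)]
    refine ENNReal.ofReal_le_ofReal ?_
    have h3 : 0 ≤ e (√(sg x)) := he0 _
    rcases (sg_nonneg x).eq_or_lt with h2 | h2
    · rw [← h2]
      simp only [ne_eq, OfNat.ofNat_ne_zero, not_false_eq_true, zero_pow, zero_mul]
      positivity
    · have e2 : sg x ^ 3 * f x ^ 6 = (√(sg x) * |f x|) ^ 6 := by
        rw [mul_pow]
        have e1 : √(sg x) ^ 6 = sg x ^ 3 := by
          calc √(sg x) ^ 6 = (√(sg x) ^ 2) ^ 3 := by ring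
            _ = sg x ^ 3 := by rw [Real.sq_sqrt h2.le]
        have e2 : |f x| ^ 6 = f x ^ 6 := by
          calc |f x| ^ 6 = (|f x| ^ 2) ^ 3 := by ring
            _ = f x ^ 6 := by rw [sq_abs]; ring
        rw [e1, e2]
      rw [e2]
      refine (pow_le_pow_left₀ (by positivity) (h x hx h2) 6).trans ?_
      have h4 := add_pow_le (he0 (√(sg x))) hK 6
      norm_num at h4
      linarith
  have h2 : ∫⁻ r in Ioo 0 s, ENNReal.ofReal r * ENNReal.ofReal (32 * e r ^ 6)
      ≤ ENNReal.ofReal (32 * (M * s ^ 2)) := by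
    have h3 : ∫⁻ r in Ioo 0 s, ENNReal.ofReal r * ENNReal.ofReal (32 * e r ^ 6)
        = ∫⁻ r in Ioo 0 s, ENNReal.ofReal (32 * (e r ^ 6 * r)) := by
      refine setLIntegral_congr_fun measurableSet_Ioo fun r hr => ?_
      show ENNReal.ofReal r * ENNReal.ofReal (32 * e r ^ 6) = ENNReal.ofReal (32 * (e r ^ 6 * r))
      rw [← ENNReal.ofReal_mul hr.1.le]
      congr 1
      ring
    rw [h3, ← ofReal_integral_eq_lintegral_ofReal (hI.const_mul 32)]
    · refine ENNReal.ofReal_le_ofReal ?_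
      rw [integral_const_mul]
      linarith
    · refine (ae_restrict_iff' measurableSet_Ioo).2 (ae_of_all _ fun r hr => ?_)
      have h5 := he0 r
      have h6 := hr.1
      show 0 ≤ 32 * (e r ^ 6 * r)
      positivity
  calc ∫⁻ x in Co c' s s, ENNReal.ofReal (sg x ^ 3 * f x ^ 6)
      ≤ ∫⁻ x in Co c' s s, (ENNReal.ofReal (32 * e (√(sg x)) ^ 6) + ENNReal.ofReal (32 * K ^ 6)) :=
        setLIntegral_mono' hCo h1
    _ = (∫⁻ x in Co c' s s, ENNReal.ofReal (32 * e (√(sg x)) ^ 6))
        + ENNReal.ofReal (32 * K ^ 6) * volume (Co c' s s) := by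
        rw [lintegral_add_right _ measurable_const, setLIntegral_const]
    _ ≤ ENNReal.ofReal (2 * s) * (ENNReal.ofReal (32 * (M * s ^ 2)) * ENNReal.ofReal (2 * Real.pi))
        + ENNReal.ofReal (32 * K ^ 6) * ENNReal.ofReal ((2 * s) ^ 3) := by
        refine add_le_add ((co_radial hg c' hs).trans ?_) (mul_le_mul' le_rfl hv)
        exact mul_le_mul' le_rfl (mul_le_mul' h2 le_rfl)
    _ = ENNReal.ofReal (32 * (4 * Real.pi * M + 8 * K ^ 6) * s ^ 3) := by
        rw [← ENNReal.ofReal_mul (by positivity), ← ENNReal.ofReal_mul (by positivity),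
          ← ENNReal.ofReal_mul (by positivity), ← ENNReal.ofReal_add (by positivity)
          (by positivity)]
        congr 1
        ring

end Pool.Agent.D0H33.AXF
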