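import Pool.Agent.D0H33.AXF.FlP
import Pool.Agent.D0H33.AXF.Pol

/-!
Project AXF: fluxes bounded in one direction by a threshold in a Morrey class.
-/

set_option autoImplicit false

open MeasureTheory Set Metric Filter Topology
open scoped ContDiff
open H459R3.NS Pool.Agent.W268.NS Pool.Agent.Q67.VD

namespace Pool.Agent.D0H33.AXF

open Pool.Agent.Q85.CC Pool.Agent.Q85.CL Pool.Agent.TH305.AX Pool.Agent.Q67.AXI
open Pool.Agent.Q151.AXI (slice)
open Pool.Agent.D0H28.OV (FF StmFF)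

/-- AXF-MAINE. -/
def StmMainE : Prop := ∀ (T E c R H T₀ M : ℝ) (u : ℝ → V → V) (p : ℝ → V → ℝ)
  (e : ℝ → ℝ → ℝ), 0 < T → 0 < R → 0 < H → AxL T E c R H u p → T₀ < T → 0 ≤ M →
  (∀ t ρ, 0 ≤ e t ρ) → (∀ t ∈ Ioo 0 T, Measurable (e t)) →
  (∀ t ∈ Ioo 0 T, T₀ < t → ∀ s ∈ Ioo 0 R, IntegrableOn (fun r => e t r ^ 6 * r) (Ioo 0 s) ∧
    ∫ r in Ioo 0 s, e t r ^ 6 * r ≤ M * s ^ 2) →
  (∀ t ∈ Ioo 0 T, T₀ < t → ∀ ρ ∈ Ioo 0 R, Flx (u t) (c - H) (c + H) (e t ρ) ρ) →
    Rg T u ![0, 0, c]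

/-- The bound of the stream function. -/
lemma FF_bdP (hAAs : StmAAs) (hAlg : StmAlg) (hFF : StmFF) {c r h R H K M : ℝ} {v : V → V}
    (hr : 0 < r) (hrR : r < R) (hr1 : r ≤ 1) (hh : 0 < h) (hhH : h < H) (hK : 0 ≤ K)
    (hv : ContDiff ℝ ∞ v) (hax : Axi v) (hdf : DFO (Co c R H) v)
    (hbd : ∀ x ∈ Cy c r h, |x 2 - c| = h → |v x 2| ≤ K) {x : V} (hx : x ∈ Co c r h)
    (hx0 : 0 < sg x) (hfl : Flx v (c - h) (c + h) M (√(sg x))) :
    √(sg x) * |FF v x| ≤ M + 2 * K := by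
  have h1 := fl_pt hAAs hAlg hr hrR hh hhH hK hv hax hdf hbd hx hx0 hfl
  obtain ⟨⟨sU, -, -, -⟩, -⟩ := hAlg v hv hax
  obtain ⟨sF, -, -⟩ := hFF.1 v hv hax
  obtain ⟨hxa, hxb⟩ := abs_lt.1 hx.2
  have hsx : √(sg x) ≤ 1 := by
    rw [Real.sqrt_le_left zero_le_one]
    exact hx.1.le.trans (by nlinarith)
  have hs0 : 0 < √(sg x) := Real.sqrt_pos.2 hx0
  have e1 : QQ v (c - h) x = -(FF v x - FF v ![x 0, x 1, c - h]) := by
    have h2 : QQ v (c - h) x = ∫ s in (c - h)..(x 2), -pd 2 (FF v) ![x 0, x 1, s] := by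
      unfold QQ
      refine intervalIntegral.integral_congr fun s hs => ?_
      rw [uIcc_of_le (by linarith)] at hs
      have hm : (![x 0, x 1, s] : V) ∈ Co c R H := by
        refine ⟨?_, ?_⟩
        · have h3 : sg ![x 0, x 1, s] = sg x := by simp [sg]
          rw [h3]
          exact hx.1.trans (by nlinarith)
        · show |s - c| < H
          rw [abs_lt]
          constructor <;> linarith [hs.1, hs.2]
      have h4 := (hFF.2.1 c R H v hv hax hdf _ hm).1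
      rw [h4, neg_neg]
    have ex : (![x 0, x 1, x 2] : V) = x := by
      funext i
      fin_cases i <;> rfl
    rw [h2, intervalIntegral.integral_neg, ln_ftc sF, ex]
  have e2 : |FF v ![x 0, x 1, c - h]| ≤ K / 2 := by
    have h4 : ‖∫ l in (0 : ℝ)..1, l * v ![l * (![x 0, x 1, c - h] : V) 0,
        l * (![x 0, x 1, c - h] : V) 1, (![x 0, x 1, c - h] : V) 2] 2‖
        ≤ ∫ l in (0 : ℝ)..1, l * K := by
      refine intervalIntegral.norm_integral_le_of_norm_le zero_le_one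
        (Eventually.of_forall fun l hl => ?_)
        (Continuous.intervalIntegrable (by fun_prop) _ _)
      have hm : (![l * (![x 0, x 1, c - h] : V) 0, l * (![x 0, x 1, c - h] : V) 1,
          (![x 0, x 1, c - h] : V) 2] : V) ∈ Cy c r h := by
        refine ⟨?_, ?_⟩
        · have h5 : sg ![l * (![x 0, x 1, c - h] : V) 0, l * (![x 0, x 1, c - h] : V) 1,
              (![x 0, x 1, c - h] : V) 2] = l ^ 2 * sg x := by
            simp [sg]
            ring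
          rw [h5]
          have h6 : l ^ 2 ≤ 1 := by nlinarith [hl.1, hl.2]
          have h7 := hx.1
          nlinarith
        · show |c - h - c| ≤ h
          rw [sub_sub_cancel_left, abs_neg, abs_of_pos hh]
      have h7 := hbd _ hm (by
        show |c - h - c| = h
        rw [sub_sub_cancel_left, abs_neg, abs_of_pos hh])
      rw [Real.norm_eq_abs, abs_mul, abs_of_pos hl.1]
      exact mul_le_mul_of_nonneg_left h7 hl.1.le
    rw [Real.norm_eq_abs, intervalIntegral.integral_mul_const, integral_id] at h4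
    have h8 : FF v ![x 0, x 1, c - h] = ∫ l in (0 : ℝ)..1,
      l * v ![l * (![x 0, x 1, c - h] : V) 0, l * (![x 0, x 1, c - h] : V) 1,
        (![x 0, x 1, c - h] : V) 2] 2 := rfl
    rw [h8]
    linarith
  have h3 : |FF v x| ≤ M / √(sg x) + K + K / 2 := by
    have h4 : FF v x = FF v ![x 0, x 1, c - h] - QQ v (c - h) x := by
      rw [e1]
      ring
    rw [h4]
    have := abs_sub (FF v ![x 0, x 1, c - h]) (QQ v (c - h) x)
    linarith
  calc √(sg x) * |FF v x| ≤ √(sg x) * (M / √(sg x) + K + K / 2) :=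
        mul_le_mul_of_nonneg_left h3 hs0.le
    _ = M + √(sg x) * (K + K / 2) := by
        field_simp
        ring
    _ ≤ M + 1 * (K + K / 2) := by
        have : 0 ≤ K + K / 2 := by positivity
        nlinarith
    _ ≤ M + 2 * K := by linarith

theorem maine (hGd : StmGd) (hAAs : StmAAs) (hAlg : StmAlg) (hCi : StmCi) (hFF : StmFF)
    (hDec : Pool.Agent.D0H28.OV.StmDec) (hMainP : StmMainP) : StmMainE := by
  intro T E c R H T₀ M u p e hT hR hH hA hT₀ hM0 he0 hem heM hflx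
  have hp := Real.pi_pos
  obtain ⟨r, hr⟩ : ∃ r : ℝ, r = min R 1 / 2 := ⟨_, rfl⟩
  have hr0 : 0 < r := by rw [hr]; positivity
  have hrR : r < R := by rw [hr]; have := min_le_left R 1; linarith
  have hr1 : r < 1 := by rw [hr]; have := min_le_right R 1; linarith
  obtain ⟨h₀, hh₀⟩ : ∃ h₀ : ℝ, h₀ = min H 1 / 2 := ⟨_, rfl⟩
  have hh₀0 : 0 < h₀ := by rw [hh₀]; positivity
  have hh₀H : h₀ < H := by rw [hh₀]; have := min_le_left H 1; linarith
  obtain ⟨h, h1, hh1, hh1h, hhh₀, hG⟩ := hGd T E c R H u p hT hR hH hA r h₀ hr0 hrR hh₀0 hh₀H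
  have hh0 : 0 < h := hh1.trans hh1h
  have hhH : h < H := hhh₀.trans hh₀H
  obtain ⟨K, TA, hK0, hTA0, hTAT, hbA⟩ := hG r (r / 2) le_rfl (by positivity) (by linarith)
  obtain ⟨T₁, hT₁⟩ : ∃ T₁ : ℝ, T₁ = (max TA T₀ + T) / 2 := ⟨_, rfl⟩
  have hmx : max TA T₀ < T := max_lt hTAT hT₀
  have hT₁A : TA ≤ T₁ := by rw [hT₁]; have := le_max_left TA T₀; linarith
  have hT₁0 : T₀ < T₁ := by rw [hT₁]; have := le_max_right TA T₀; linarith
  have hT₁T : T₁ < T := by rw [hT₁]; linarith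
  have hT₁p : 0 < T₁ := hTA0.trans_le hT₁A
  have hI : ∀ t ∈ Ico T₁ T, t ∈ Ioo 0 T := fun t ht => ⟨hT₁p.trans_le ht.1, ht.2⟩
  have hbK : ∀ t ∈ Ico T₁ T, ∀ x ∈ Out c r h (r / 2) h1, BdA K (u t) x := fun t ht x hx =>
    hbA t ⟨hT₁A.trans ht.1, ht.2⟩ x hx
  have hside : ∀ x ∈ Cy c r h, (sg x = r ^ 2 ∨ |x 2 - c| = h) → x ∈ Out c r h (r / 2) h1 := by
    intro x hx hb
    refine ⟨hx, ?_⟩
    rcases hb with hb | hb
    · left
      rw [hb]
      exact pow_le_pow_left₀ (by positivity) (by linarith) 2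
    · right
      rw [hb]
      exact hh1h.le
  obtain ⟨C₀, hC₀, hcirc⟩ := hCi T E c R H K r h T₁ u p hA hr0 hrR hr1 hh0 hhH hT₁p hT₁T
    (fun t ht x hx hb => (hbK t ht x (hside x hx hb)).2.2.1)
  have hF : ∀ t ∈ Ico T₁ T, ∀ x ∈ Co c r h, 0 < sg x →
      √(sg x) * |FF (u t) x| ≤ e t (√(sg x)) + 2 * K := by
    intro t ht x hx hx0
    have hρ : √(sg x) ∈ Ioo 0 r := ⟨Real.sqrt_pos.2 hx0, by
      rw [Real.sqrt_lt' hr0]
      exact hx.1⟩
    exact FF_bdP hAAs hAlg hFF hr0 hrR hr1.le hh0 hhH hK0 (slice hA.smooth_u (hI t ht))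
      (hA.axi t (hI t ht)) (hA.divfree t (hI t ht))
      (fun y hy hyb => (hbK t ht y (hside y hy (Or.inr hyb))).1 2) hx hx0
      (Flx_mono (hflx t (hI t ht) (hT₁0.trans_le ht.1) _ ⟨hρ.1, hρ.2.trans hrR⟩)
        (by linarith) (by linarith))
  -- the decay of the circulation
  obtain ⟨C, κ, r', T₂, hC, hκ, hr', hr'1, hT₁₂, hT₂, hdec⟩ := hDec T E c R H (r / 2) (h / 2) T₁
    C₀ (32 * (4 * Real.pi * M + 8 * (2 * K) ^ 6)) (r / 2) u p hA (by positivity) (by linarith)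
    (by positivity) (by linarith) hT₁p hT₁T (by positivity) (by positivity)
    (fun t ht x hx => hcirc t ht x ⟨hx.1.trans (pow_le_pow_left₀ (by positivity) (by linarith) 2),
      hx.2.trans (by linarith)⟩)
    (fun t ht c' s hs hsr hsub => by
      obtain ⟨q1, q2⟩ := heM t (hI t ht) (hT₁0.trans_le ht.1) s ⟨hs, by linarith⟩
      exact mor_bdE hs (by positivity) hM0
        ((hFF.1 (u t) (slice hA.smooth_u (hI t ht)) (hA.axi t (hI t ht))).1.continuous)
        (hem t (hI t ht)) (he0 t) q1 q2 fun x hx hx0 => hF t ht x (by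
          have h5 := hsub hx
          refine ⟨h5.1.trans_lt ?_, h5.2.trans_lt (by linarith)⟩
          exact pow_lt_pow_left₀ (by linarith) (by positivity) (by norm_num)) hx0)
  -- the smaller cylinder
  obtain ⟨r₂, hr₂⟩ : ∃ r₂ : ℝ, r₂ = min r' (min r h) := ⟨_, rfl⟩
  have hr₂0 : 0 < r₂ := by rw [hr₂]; exact lt_min hr' (lt_min hr0 hh0)
  have hr₂' : r₂ ≤ r' := by rw [hr₂]; exact min_le_left _ _
  have hr₂r : r₂ ≤ r := by rw [hr₂]; exact (min_le_right _ _).trans (min_le_left _ _)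
  have hr₂h : r₂ ≤ h := by rw [hr₂]; exact (min_le_right _ _).trans (min_le_right _ _)
  have hA' : AxL T E c r₂ r₂ u p := AxL_mono hA hr₂0.le (by linarith) (by linarith)
  refine hMainP T E c r₂ r₂ T₂ 0 u p (fun _ => 0) 2 (C * (2 / κ) ^ 2) hT hr₂0 hr₂0 hA' hT₂
    continuousOn_const (by simp) (by norm_num) (by positivity) le_rfl (by norm_num) ?_
  intro t ht hT₂t x hx hx0 _ hlt _ _
  exfalso
  have hsg1 : sg x < 1 := hx.1.trans_le (by nlinarith)
  have h5 := hdec t ⟨hT₂t.le, ht.2⟩ x ⟨hx.1.le.trans (pow_le_pow_left₀ hr₂0.le hr₂' 2),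
    hx.2.le.trans hr₂'⟩
  have h6 := pow_log hx0 hsg1 hκ hC.le
  have h7 : lam T 0 t x = Real.log (1 / sg x) := by
    unfold lam
    rw [mul_zero, Real.rpow_zero]
  rw [h7] at hlt
  linarith

end Pool.Agent.D0H33.AXF
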