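import Pool.Agent.D0H33.AXF.AllE
import Pool.Agent.D0H33.AXF.MainG

/-!
Project AXF: flux thresholds with a Morrey bound at many scales, the theorem at the singular points,
all viscosities.
-/

set_option autoImplicit false

open MeasureTheory Set Metric Filter Topology
open scoped ContDiff
open H459R3.NS Pool.Agent.W268.NS Pool.Agent.Q67.VD

namespace Pool.Agent.D0H33.AXF

open Pool.Agent.Q85.CC Pool.Agent.Q85.CL Pool.Agent.TH305.AX Pool.Agent.Q67.AXI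

theorem hDecG : Pool.Agent.D0H33.OV.StmDecG :=
  Pool.Agent.D0H33.OV.decG hAlg hFF hEqC hCut hOsc

theorem hMainG : StmMainG := maing hGd hAAs hAlg hCi hFF hDecG hMainP

/-- The local theorem with a threshold bounded at many scales, all viscosities. -/
theorem flows_G : ∃ d : ℝ → ℝ, (∀ M, 0 < d M) ∧ ∀ (ν T E : ℝ) (Ω : Set V)
    (u : ℝ → V → V) (p : ℝ → V → ℝ), 0 < ν → DSl ν T E Ω u p →
    (∀ t ∈ Ioo 0 T, ∀ (θ : ℝ), ∀ x ∈ Ω, rot θ x ∈ Ω → u t (rot θ x) = rot θ (u t x)) →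
    ∀ a ∈ Ω, a 0 = 0 → a 1 = 0 → Sing T u a →
    ∀ (e : ℝ → ℝ → ℝ) (G : Set ℕ) (M : ℕ → ℝ) (T₀ R : ℝ), (∀ j ∈ G, 0 ≤ M j) →
    (∀ t ρ, 0 ≤ e t ρ) → (∀ t ∈ Ioo 0 T, Measurable (e t)) → T₀ < T → 0 < R →
    (∀ t ∈ Ioo 0 T, T₀ < t → ∀ j ∈ G, (1 / 2 : ℝ) ^ j < R →
      IntegrableOn (fun r => e t r ^ 6 * r) (Ioo 0 ((1 / 2) ^ j)) ∧
      ∫ r in Ioo 0 ((1 / 2) ^ j), e t r ^ 6 * r ≤ M j * ν ^ 6 * ((1 / 2) ^ j) ^ 2) →
    (∀ᶠ n : ℕ in atTop, Real.log n ≤ ∑ j ∈ Finset.range n, G.indicator (fun j => d (M j)) j) →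
    ∃ t ∈ Ioo 0 T, T₀ < t ∧ ∃ ρ ∈ Ioo 0 R, ¬ Flx (u t) (a 2 - R) (a 2 + R) (e t ρ) ρ := by
  obtain ⟨d, hd0, hMain⟩ := hMainG
  refine ⟨d, hd0, ?_⟩
  intro ν T E Ω u p hν h hax a ha ha0 ha1 hs e G M T₀ R hM0 he0 hem hT₀ hR heM hGs
  have hT := hs.pos
  have hae : a = ![0, 0, a 2] := by
    funext i
    fin_cases i
    · exact ha0
    · exact ha1
    · rfl
  by_contra hcon
  push Not at hcon
  obtain ⟨R', hR', hRR, hsub⟩ := small_ball h.openO ha hR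
  rw [hae] at hsub
  obtain ⟨E', v, q, hL, hv⟩ := hTra ν T E Ω u p hν hT h hax (a 2) R' hR' hsub
  have hR2 : 0 < R' / 2 := by positivity
  have hνi : 0 < ν⁻¹ := inv_pos.2 hν
  have hmt : MapsTo (fun s : ℝ => s / ν) (Ioo 0 (ν * T)) (Ioo 0 T) := by
    intro s hs
    exact ⟨div_pos hs.1 hν, by rw [div_lt_iff₀ hν, mul_comm]; exact hs.2⟩
  have hTt : ∀ t' : ℝ, ν * T₀ < t' → T₀ < t' / ν := by
    intro t' h1
    rw [lt_div_iff₀ hν, mul_comm]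
    exact h1
  have hreg := hMain (ν * T) E' (a 2) (R' / 2) (R' / 2) (ν * T₀) v q
    (fun t' ρ => ν⁻¹ * e (t' / ν) ρ) G M
    (mul_pos hν hT) hR2 hR2 hL (mul_lt_mul_of_pos_left hT₀ hν) hM0
    (fun t' ρ => mul_nonneg hνi.le (he0 _ _))
    (fun t' ht' => (hem _ (hmt ht')).const_mul ν⁻¹)
    (by
      intro t' ht' hT0t' j hj hjR
      obtain ⟨q1, q2⟩ := heM (t' / ν) (hmt ht') (hTt t' hT0t') j hj (by linarith)
      have e1 : (fun r => (ν⁻¹ * e (t' / ν) r) ^ 6 * r)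
          = fun r => ν⁻¹ ^ 6 * (e (t' / ν) r ^ 6 * r) := by
        funext r
        ring
      refine ⟨?_, ?_⟩
      · show IntegrableOn (fun r => (ν⁻¹ * e (t' / ν) r) ^ 6 * r) (Ioo 0 ((1 / 2) ^ j))
        rw [e1]
        exact q1.const_mul _
      · show ∫ r in Ioo 0 ((1 / 2) ^ j), (ν⁻¹ * e (t' / ν) r) ^ 6 * r ≤ M j * ((1 / 2) ^ j) ^ 2
        rw [e1, integral_const_mul]
        refine (mul_le_mul_of_nonneg_left q2 (by positivity)).trans (le_of_eq ?_)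
        field_simp) hGs
    (by
      intro t' ht' hT0t' ρ hρ
      have ht := hmt ht'
      have htν : ν * (t' / ν) = t' := by field_simp
      have hvx : ∀ x ∈ Co (a 2) (R' / 2) (R' / 2), v t' x = ν⁻¹ • u (t' / ν) x := by
        intro x hx
        rw [← hv _ ht x hx, htν]
      have h1 := hcon (t' / ν) ht (hTt t' hT0t') ρ ⟨hρ.1, by linarith [hρ.2]⟩
      have h2 : Flx (u (t' / ν)) (a 2 - R' / 2) (a 2 + R' / 2) (e (t' / ν) ρ) ρ := by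
        rcases h1 with h1 | h1
        · exact Or.inl fun z₁ z₂ k1 k2 k3 => h1 z₁ z₂ (by linarith) k2 (by linarith)
        · exact Or.inr fun z₁ z₂ k1 k2 k3 => h1 z₁ z₂ (by linarith) k2 (by linarith)
      exact Flx_scale hν hρ.1 hρ.2 hvx h2)
  have hb := backA hν hv (mem_Co_self hR2 hR2) hreg
  rw [← hae] at hb
  exact hs.not_bdd hb

end Pool.Agent.D0H33.AXF
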