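import Pool.Agent.D0H33.AXF.MainF
import Pool.Agent.D0H33.AXF.Fl
import Pool.Agent.D0H28.OV.Defs
import Pool.Agent.Q67.AXI.Defs3

/-!
Project AXF: fluxes bounded in one direction by any constant. The decay of the circulation is the
statement `StmDec` of project OV (helper28).
-/

set_option autoImplicit false

open MeasureTheory Set Metric Filter Topology
open scoped ContDiff
open H459R3.NS Pool.Agent.W268.NS Pool.Agent.Q67.VD

namespace Pool.Agent.D0H33.AXF

open Pool.Agent.Q85.CC Pool.Agent.Q85.CL Pool.Agent.TH305.AX Pool.Agent.Q67.AXI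
open Pool.Agent.Q151.AXI (slice)
open Pool.Agent.D0H28.OV (FF StmFF)

/-- AXF-MAINM. -/
def StmMainM : Prop := ∀ (T E c R H T₀ M : ℝ) (u : ℝ → V → V) (p : ℝ → V → ℝ),
  0 < T → 0 < R → 0 < H → AxL T E c R H u p → T₀ < T →
  (∀ t ∈ Ioo 0 T, T₀ < t → ∀ ρ ∈ Ioo 0 R, Flx (u t) (c - H) (c + H) M ρ) →
    Rg T u ![0, 0, c]

/-- Restriction to a smaller cylinder. -/
lemma AxL_mono {T E c R H R' H' : ℝ} {u : ℝ → V → V} {p : ℝ → V → ℝ} (h : AxL T E c R H u p)
    (hR' : 0 ≤ R') (hR : R' ≤ R) (hH : H' ≤ H) : AxL T E c R' H' u p := by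
  have hsub : Co c R' H' ⊆ Co c R H := fun x hx =>
    ⟨hx.1.trans_le (pow_le_pow_left₀ hR' hR 2), hx.2.trans_le hH⟩
  have hsgc : Continuous sg := by
    unfold sg
    fun_prop
  refine
    { openO := ?_
      smooth_u := h.smooth_u
      smooth_p := h.smooth_p
      divfree := fun t ht x hx => h.divfree t ht x (hsub hx)
      momentum := fun t ht x hx => h.momentum t ht x (hsub hx)
      en_int := fun t ht => (h.en_int t ht).mono_set hsub
      en := fun t ht => ?_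
      dis := h.dis.mono_set (prod_mono le_rfl hsub)
      prs := h.prs.mono_set (prod_mono le_rfl hsub)
      axi := h.axi }
  · have k1 : IsOpen {x : V | sg x < R' ^ 2} := isOpen_lt hsgc continuous_const
    have k2 : IsOpen {x : V | |x 2 - c| < H'} := isOpen_lt (by fun_prop) continuous_const
    exact k1.inter k2
  · exact (setIntegral_mono_set (h.en_int t ht)
      (ae_of_all _ fun y => Finset.sum_nonneg fun i _ => sq_nonneg _)
      (LE.le.eventuallyLE hsub)).trans (h.en t ht)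

/-- The bound of the stream function. -/
lemma FF_bd (hFl : StmFl) (hAlg : StmAlg) (hFF : StmFF) {c r h R H K M : ℝ} {v : V → V}
    (hr : 0 < r) (hrR : r < R) (hr1 : r ≤ 1) (hh : 0 < h) (hhH : h < H) (hK : 0 ≤ K) (hM : 0 ≤ M)
    (hv : ContDiff ℝ ∞ v) (hax : Axi v) (hdf : DFO (Co c R H) v)
    (hbd : ∀ x ∈ Cy c r h, |x 2 - c| = h → |v x 2| ≤ K)
    (hfl : ∀ ρ ∈ Ioo 0 r, Flx v (c - h) (c + h) M ρ) {x : V} (hx : x ∈ Co c r h)
    (hx0 : 0 < sg x) : √(sg x) * |FF v x| ≤ M + 2 * K := by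
  have h1 := hFl c r h R H K M 0 v hr hrR hh hhH hK hM le_rfl hv hax hdf hbd
    (fun ρ hρ => by rw [zero_mul, add_zero]; exact hfl ρ hρ) x hx hx0
  rw [zero_add] at h1
  obtain ⟨⟨sU, -, -, -⟩, -⟩ := hAlg v hv hax
  obtain ⟨sF, -, -⟩ := hFF.1 v hv hax
  obtain ⟨hxa, hxb⟩ := abs_lt.1 hx.2
  have hsx : √(sg x) ≤ 1 := by
    rw [Real.sqrt_le_left zero_le_one]
    exact hx.1.le.trans (by nlinarith)
  have hs0 : 0 < √(sg x) := Real.sqrt_pos.2 hx0
  have e1 : QQ v (c - h) x = -(FF v x - FF v ![x 0, x 1, c - h]) := by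
    have h2 : QQ v (c - h) x = ∫ s in (c - h)..(x 2), -pd 2 (FF v) ![x 0, x 1, s] := by
      unfold QQ
      refine intervalIntegral.integral_congr fun s hs => ?_
      rw [uIcc_of_le (by linarith)] at hs
      have hm : (![x 0, x 1, s] : V) ∈ Co c R H := by
        refine ⟨?_, ?_⟩
        · have h3 : sg ![x 0, x 1, s] = sg x := by simp [sg]
          rw [h3]
          exact hx.1.trans (by nlinarith)
        · show |s - c| < H
          rw [abs_lt]
          constructor <;> linarith [hs.1, hs.2]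
      have h4 := (hFF.2.1 c R H v hv hax hdf _ hm).1
      rw [h4, neg_neg]
    have ex : (![x 0, x 1, x 2] : V) = x := by
      funext i
      fin_cases i <;> rfl
    rw [h2, intervalIntegral.integral_neg, ln_ftc sF, ex]
  have e2 : |FF v ![x 0, x 1, c - h]| ≤ K / 2 := by
    have h4 : ‖∫ l in (0 : ℝ)..1, l * v ![l * (![x 0, x 1, c - h] : V) 0,
        l * (![x 0, x 1, c - h] : V) 1, (![x 0, x 1, c - h] : V) 2] 2‖
        ≤ ∫ l in (0 : ℝ)..1, l * K := by
      refine intervalIntegral.norm_integral_le_of_norm_le zero_le_one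
        (Eventually.of_forall fun l hl => ?_)
        (Continuous.intervalIntegrable (by fun_prop) _ _)
      have hm : (![l * (![x 0, x 1, c - h] : V) 0, l * (![x 0, x 1, c - h] : V) 1,
          (![x 0, x 1, c - h] : V) 2] : V) ∈ Cy c r h := by
        refine ⟨?_, ?_⟩
        · have h5 : sg ![l * (![x 0, x 1, c - h] : V) 0, l * (![x 0, x 1, c - h] : V) 1,
              (![x 0, x 1, c - h] : V) 2] = l ^ 2 * sg x := by
            simp [sg]
            ring
          rw [h5]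
          have h6 : l ^ 2 ≤ 1 := by nlinarith [hl.1, hl.2]
          have h7 := hx.1
          nlinarith
        · show |c - h - c| ≤ h
          rw [sub_sub_cancel_left, abs_neg, abs_of_pos hh]
      have h7 := hbd _ hm (by
        show |c - h - c| = h
        rw [sub_sub_cancel_left, abs_neg, abs_of_pos hh])
      rw [Real.norm_eq_abs, abs_mul, abs_of_pos hl.1]
      exact mul_le_mul_of_nonneg_left h7 hl.1.le
    rw [Real.norm_eq_abs, intervalIntegral.integral_mul_const, integral_id] at h4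
    have h8 : FF v ![x 0, x 1, c - h] = ∫ l in (0 : ℝ)..1,
      l * v ![l * (![x 0, x 1, c - h] : V) 0, l * (![x 0, x 1, c - h] : V) 1,
        (![x 0, x 1, c - h] : V) 2] 2 := rfl
    rw [h8]
    linarith
  have h3 : |FF v x| ≤ M / √(sg x) + K + K / 2 := by
    have h4 : FF v x = FF v ![x 0, x 1, c - h] - QQ v (c - h) x := by
      rw [e1]
      ring
    rw [h4]
    have := abs_sub (FF v ![x 0, x 1, c - h]) (QQ v (c - h) x)
    linarith
  calc √(sg x) * |FF v x| ≤ √(sg x) * (M / √(sg x) + K + K / 2) :=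
        mul_le_mul_of_nonneg_left h3 hs0.le
    _ = M + √(sg x) * (K + K / 2) := by
        field_simp
        ring
    _ ≤ M + 1 * (K + K / 2) := by
        have : 0 ≤ K + K / 2 := by positivity
        nlinarith
    _ ≤ M + 2 * K := by linarith

/-- The volume of the small cylinders. -/
lemma Co_vol (c' s : ℝ) (hs : 0 < s) : volume (Co c' s s) ≤ ENNReal.ofReal ((2 * s) ^ 3) := by
  have h1 : Co c' s s ⊆ ball (![0, 0, c'] : V) s := by
    intro x hx
    have h2 := hx.1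
    unfold sg at h2
    rw [mem_ball, dist_pi_lt_iff hs]
    intro i
    rw [Real.dist_eq]
    fin_cases i
    · show |x 0 - 0| < s
      rw [sub_zero]
      exact abs_lt_of_sq_lt_sq (by nlinarith [sq_nonneg (x 1)]) hs.le
    · show |x 1 - 0| < s
      rw [sub_zero]
      exact abs_lt_of_sq_lt_sq (by nlinarith [sq_nonneg (x 0)]) hs.le
    · exact hx.2
  refine (measure_mono h1).trans (le_of_eq ?_)
  rw [Real.volume_pi_ball _ hs]
  simp

/-- The Morrey bound. -/
lemma mor_bd {f : V → ℝ} {c' s A : ℝ} (hs : 0 < s)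
    (h : ∀ x ∈ Co c' s s, 0 < sg x → √(sg x) * |f x| ≤ A) :
    ∫ x in Co c' s s, sg x ^ 3 * f x ^ 6 ≤ 8 * A ^ 6 * s ^ 3 := by
  have hv := Co_vol c' s hs
  have hfin : volume (Co c' s s) < ⊤ := hv.trans_lt ENNReal.ofReal_lt_top
  have h1 : ∀ x ∈ Co c' s s, ‖sg x ^ 3 * f x ^ 6‖ ≤ A ^ 6 := by
    intro x hx
    have h0 : 0 ≤ sg x ^ 3 * f x ^ 6 := by
      have := sg_nonneg x
      positivity
    rw [Real.norm_of_nonneg h0]
    rcases (sg_nonneg x).eq_or_lt with h2 | h2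
    · rw [← h2]
      simp only [ne_eq, OfNat.ofNat_ne_zero, not_false_eq_true, zero_pow, zero_mul]
      positivity
    · calc sg x ^ 3 * f x ^ 6 = (√(sg x) * |f x|) ^ 6 := by
            rw [mul_pow]
            have e1 : √(sg x) ^ 6 = sg x ^ 3 := by
              calc √(sg x) ^ 6 = (√(sg x) ^ 2) ^ 3 := by ring
                _ = sg x ^ 3 := by rw [Real.sq_sqrt h2.le]
            have e2 : |f x| ^ 6 = f x ^ 6 := by
              calc |f x| ^ 6 = (|f x| ^ 2) ^ 3 := by ring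
                _ = f x ^ 6 := by rw [sq_abs]; ring
            rw [e1, e2]
        _ ≤ A ^ 6 := pow_le_pow_left₀ (by positivity) (h x hx h2) 6
  have h2 := norm_setIntegral_le_of_norm_le_const hfin h1
  have h3 : volume.real (Co c' s s) ≤ (2 * s) ^ 3 := by
    unfold Measure.real
    refine ENNReal.toReal_le_of_le_ofReal (by positivity) hv
  calc ∫ x in Co c' s s, sg x ^ 3 * f x ^ 6 ≤ ‖∫ x in Co c' s s, sg x ^ 3 * f x ^ 6‖ :=
        Real.le_norm_self _
    _ ≤ A ^ 6 * volume.real (Co c' s s) := h2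
    _ ≤ A ^ 6 * (2 * s) ^ 3 := mul_le_mul_of_nonneg_left h3 (by positivity)
    _ = 8 * A ^ 6 * s ^ 3 := by ring

/-- A power is smaller than any power of the logarithm. -/
lemma pow_log {s κ C : ℝ} (hs : 0 < s) (hs1 : s < 1) (hκ : 0 < κ) (hC : 0 ≤ C) :
    C * s ^ κ ≤ C * (2 / κ) ^ 2 * Real.log (1 / s) ^ (-2 : ℝ) := by
  have hl : 0 < Real.log (1 / s) := Real.log_pos (by rw [one_div]; exact (one_lt_inv₀ hs).2 hs1)
  have h1 := Real.abs_log_mul_self_rpow_lt s (κ / 2) hs hs1.le (by positivity)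
  have e0 : Real.log (1 / s) = -Real.log s := by rw [one_div, Real.log_inv]
  have h2 : (Real.log s * s ^ (κ / 2)) ^ 2 ≤ (2 / κ) ^ 2 := by
    rw [← sq_abs]
    refine pow_le_pow_left₀ (abs_nonneg _) ?_ 2
    have e : (1 : ℝ) / (κ / 2) = 2 / κ := by field_simp
    rw [e] at h1
    exact h1.le
  have e1 : (Real.log s * s ^ (κ / 2)) ^ 2 = Real.log (1 / s) ^ 2 * s ^ κ := by
    rw [mul_pow, e0, neg_sq]
    congr 1
    rw [← Real.rpow_natCast, ← Real.rpow_mul hs.le]
    congr 1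
    push_cast
    ring
  rw [e1] at h2
  have e2 : Real.log (1 / s) ^ (-2 : ℝ) = (Real.log (1 / s) ^ 2)⁻¹ := by
    rw [Real.rpow_neg hl.le]
    norm_num
  rw [e2, mul_assoc]
  refine mul_le_mul_of_nonneg_left ?_ hC
  rw [← div_eq_mul_inv, le_div_iff₀ (by positivity)]
  linarith

theorem mainm (hGd : StmGd) (hAlg : StmAlg) (hFl : StmFl) (hCi : StmCi) (hFF : StmFF)
    (hDec : Pool.Agent.D0H28.OV.StmDec) (hMainP : StmMainP) : StmMainM := by
  intro T E c R H T₀ M' u p hT hR hH hA hT₀ hflx'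
  obtain ⟨M, hMM⟩ : ∃ M : ℝ, M = |M'| := ⟨_, rfl⟩
  have hM0 : 0 ≤ M := by rw [hMM]; exact abs_nonneg _
  have hM'M : M' ≤ M := by rw [hMM]; exact le_abs_self _
  have hflx : ∀ t ∈ Ioo 0 T, T₀ < t → ∀ ρ ∈ Ioo 0 R, Flx (u t) (c - H) (c + H) M ρ := by
    intro t ht ht0 ρ hρ
    rcases hflx' t ht ht0 ρ hρ with h | h
    · exact Or.inl fun z₁ z₂ k1 k2 k3 => (h z₁ z₂ k1 k2 k3).trans hM'M
    · exact Or.inr fun z₁ z₂ k1 k2 k3 => (neg_le_neg hM'M).trans (h z₁ z₂ k1 k2 k3)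
  obtain ⟨r, hr⟩ : ∃ r : ℝ, r = min R 1 / 2 := ⟨_, rfl⟩
  have hr0 : 0 < r := by rw [hr]; positivity
  have hrR : r < R := by rw [hr]; have := min_le_left R 1; linarith
  have hr1 : r < 1 := by rw [hr]; have := min_le_right R 1; linarith
  obtain ⟨h₀, hh₀⟩ : ∃ h₀ : ℝ, h₀ = min H 1 / 2 := ⟨_, rfl⟩
  have hh₀0 : 0 < h₀ := by rw [hh₀]; positivity
  have hh₀H : h₀ < H := by rw [hh₀]; have := min_le_left H 1; linarith
  obtain ⟨h, h1, hh1, hh1h, hhh₀, hG⟩ := hGd T E c R H u p hT hR hH hA r h₀ hr0 hrR hh₀0 hh₀H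
  have hh0 : 0 < h := hh1.trans hh1h
  have hhH : h < H := hhh₀.trans hh₀H
  obtain ⟨K, TA, hK0, hTA0, hTAT, hbA⟩ := hG r (r / 2) le_rfl (by positivity) (by linarith)
  obtain ⟨T₁, hT₁⟩ : ∃ T₁ : ℝ, T₁ = (max TA T₀ + T) / 2 := ⟨_, rfl⟩
  have hmx : max TA T₀ < T := max_lt hTAT hT₀
  have hT₁A : TA ≤ T₁ := by rw [hT₁]; have := le_max_left TA T₀; linarith
  have hT₁0 : T₀ < T₁ := by rw [hT₁]; have := le_max_right TA T₀; linarith
  have hT₁T : T₁ < T := by rw [hT₁]; linarith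
  have hT₁p : 0 < T₁ := hTA0.trans_le hT₁A
  have hI : ∀ t ∈ Ico T₁ T, t ∈ Ioo 0 T := fun t ht => ⟨hT₁p.trans_le ht.1, ht.2⟩
  have hbK : ∀ t ∈ Ico T₁ T, ∀ x ∈ Out c r h (r / 2) h1, BdA K (u t) x := fun t ht x hx =>
    hbA t ⟨hT₁A.trans ht.1, ht.2⟩ x hx
  have hside : ∀ x ∈ Cy c r h, (sg x = r ^ 2 ∨ |x 2 - c| = h) → x ∈ Out c r h (r / 2) h1 := by
    intro x hx hb
    refine ⟨hx, ?_⟩
    rcases hb with hb | hb
    · left
      rw [hb]
      exact pow_le_pow_left₀ (by positivity) (by linarith) 2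
    · right
      rw [hb]
      exact hh1h.le
  obtain ⟨C₀, hC₀, hcirc⟩ := hCi T E c R H K r h T₁ u p hA hr0 hrR hr1 hh0 hhH hT₁p hT₁T
    (fun t ht x hx hb => (hbK t ht x (hside x hx hb)).2.2.1)
  have hF : ∀ t ∈ Ico T₁ T, ∀ x ∈ Co c r h, 0 < sg x → √(sg x) * |FF (u t) x| ≤ M + 2 * K := by
    intro t ht x hx hx0
    exact FF_bd hFl hAlg hFF hr0 hrR hr1.le hh0 hhH hK0 hM0 (slice hA.smooth_u (hI t ht))
      (hA.axi t (hI t ht)) (hA.divfree t (hI t ht))
      (fun y hy hyb => (hbK t ht y (hside y hy (Or.inr hyb))).1 2)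
      (fun ρ hρ => Flx_mono (hflx t (hI t ht) (hT₁0.trans_le ht.1) ρ ⟨hρ.1, hρ.2.trans hrR⟩)
        (by linarith) (by linarith)) hx hx0
  -- the decay of the circulation
  obtain ⟨C, κ, r', T₂, hC, hκ, hr', hr'1, hT₁₂, hT₂, hdec⟩ := hDec T E c R H (r / 2) (h / 2) T₁
    C₀ (8 * (M + 2 * K) ^ 6) 1 u p hA (by positivity) (by linarith) (by positivity) (by linarith)
    hT₁p hT₁T (by positivity) one_pos
    (fun t ht x hx => hcirc t ht x ⟨hx.1.trans (pow_le_pow_left₀ (by positivity) (by linarith) 2),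
      hx.2.trans (by linarith)⟩)
    (fun t ht c' s hs _ hsub => mor_bd hs fun x hx hx0 => hF t ht x (by
      have h5 := hsub hx
      refine ⟨h5.1.trans_lt ?_, h5.2.trans_lt (by linarith)⟩
      exact pow_lt_pow_left₀ (by linarith) (by positivity) (by norm_num)) hx0)
  -- the smaller cylinder
  obtain ⟨r₂, hr₂⟩ : ∃ r₂ : ℝ, r₂ = min r' (min r h) := ⟨_, rfl⟩
  have hr₂0 : 0 < r₂ := by rw [hr₂]; exact lt_min hr' (lt_min hr0 hh0)
  have hr₂' : r₂ ≤ r' := by rw [hr₂]; exact min_le_left _ _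
  have hr₂r : r₂ ≤ r := by rw [hr₂]; exact (min_le_right _ _).trans (min_le_left _ _)
  have hr₂h : r₂ ≤ h := by rw [hr₂]; exact (min_le_right _ _).trans (min_le_right _ _)
  have hA' : AxL T E c r₂ r₂ u p := AxL_mono hA hr₂0.le (by linarith) (by linarith)
  refine hMainP T E c r₂ r₂ T₂ 0 u p (fun _ => 0) 2 (C * (2 / κ) ^ 2) hT hr₂0 hr₂0 hA' hT₂
    continuousOn_const (by simp) (by norm_num) (by positivity) le_rfl (by norm_num) ?_
  intro t ht hT₂t x hx hx0 _ hlt _ _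
  exfalso
  have hsg1 : sg x < 1 := hx.1.trans_le (by nlinarith)
  have h5 := hdec t ⟨hT₂t.le, ht.2⟩ x ⟨hx.1.le.trans (pow_le_pow_left₀ hr₂0.le hr₂' 2),
    hx.2.le.trans hr₂'⟩
  have h6 := pow_log hx0 hsg1 hκ hC.le
  have h7 : lam T 0 t x = Real.log (1 / sg x) := by
    unfold lam
    rw [mul_zero, Real.rpow_zero]
  rw [h7] at hlt
  linarith

end Pool.Agent.D0H33.AXF
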