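import Pool.Agent.D0H33.AXF.All
import Pool.Agent.D0H33.AXF.MainM
import Pool.Agent.D0H33.OV.Dec
import Pool.Agent.D0H33.OV.Osc
import Pool.Agent.D0H28.OV.E3
import Pool.Agent.D0H28.OV.P
import Pool.Agent.D0H65.OV.Lg

/-!
Project AXF: fluxes bounded in one direction by any constant; all the hypotheses are discharged,
and the theorem at the singular points.
-/

set_option autoImplicit false

open MeasureTheory Set Metric Filter Topology
open scoped ContDiff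
open H459R3.NS Pool.Agent.W268.NS Pool.Agent.Q67.VD

namespace Pool.Agent.D0H33.AXF

open Pool.Agent.Q85.CC Pool.Agent.Q85.CL Pool.Agent.TH305.AX Pool.Agent.Q67.AXI

theorem hFF : Pool.Agent.D0H28.OV.StmFF := Pool.Agent.D0H28.OV.t_FF hAAs hAxF hAlg
theorem hCacD : Pool.Agent.D0H28.OV.StmCacD :=
  Pool.Agent.D0H28.OV.t_CacD Pool.Agent.D0H65.OV.ax hH0 Pool.Agent.D0H28.OV.t_Hh
theorem hDG : Pool.Agent.D0H28.OV.StmDG :=
  Pool.Agent.D0H28.OV.t_DG hCacD Pool.Agent.D0H28.OV.t_S6 Pool.Agent.D0H28.OV.t_Hh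
theorem hOsc : Pool.Agent.D0H28.OV.StmOsc := Pool.Agent.D0H33.OV.osc hDG Pool.Agent.D0H65.OV.lg
theorem hDec : Pool.Agent.D0H28.OV.StmDec := Pool.Agent.D0H33.OV.dec hAlg hFF hEqC hCut hOsc
theorem hMainM : StmMainM := mainm hGd hAlg hFl hCi hFF hDec hMainP

/-- The local theorem with any constant, all viscosities. -/
theorem flows_M {ν T E : ℝ} {Ω : Set V}
    {u : ℝ → V → V} {p : ℝ → V → ℝ} (hν : 0 < ν) (h : DSl ν T E Ω u p)
    (hax : ∀ t ∈ Ioo 0 T, ∀ (θ : ℝ), ∀ x ∈ Ω, rot θ x ∈ Ω → u t (rot θ x) = rot θ (u t x))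
    {a : V} (ha : a ∈ Ω) (ha0 : a 0 = 0) (ha1 : a 1 = 0) (hs : Sing T u a) :
    ∀ M T₀ R : ℝ, T₀ < T → 0 < R → ∃ t ∈ Ioo 0 T, T₀ < t ∧ ∃ ρ ∈ Ioo 0 R,
      ¬ Flx (u t) (a 2 - R) (a 2 + R) M ρ := by
  have hT := hs.pos
  have hae : a = ![0, 0, a 2] := by
    funext i
    fin_cases i
    · exact ha0
    · exact ha1
    · rfl
  intro M T₀ R hT₀ hR
  by_contra hcon
  push Not at hcon
  obtain ⟨R', hR', hRR, hsub⟩ := small_ball h.openO ha hR
  rw [hae] at hsub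
  obtain ⟨E', v, q, hL, hv⟩ := hTra ν T E Ω u p hν hT h hax (a 2) R' hR' hsub
  have hR2 : 0 < R' / 2 := by positivity
  have hmt : MapsTo (fun s : ℝ => s / ν) (Ioo 0 (ν * T)) (Ioo 0 T) := by
    intro s hs
    exact ⟨div_pos hs.1 hν, by rw [div_lt_iff₀ hν, mul_comm]; exact hs.2⟩
  have hreg := hMainM (ν * T) E' (a 2) (R' / 2) (R' / 2) (ν * T₀) (ν⁻¹ * M) v q
    (mul_pos hν hT) hR2 hR2 hL (mul_lt_mul_of_pos_left hT₀ hν) (by
      intro t' ht' hT0t' ρ hρ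
      have ht := hmt ht'
      have htν : ν * (t' / ν) = t' := by field_simp
      have hT0 : T₀ < t' / ν := by
        rw [lt_div_iff₀ hν, mul_comm]
        exact hT0t'
      have hvx : ∀ x ∈ Co (a 2) (R' / 2) (R' / 2), v t' x = ν⁻¹ • u (t' / ν) x := by
        intro x hx
        rw [← hv _ ht x hx, htν]
      have h1 := hcon (t' / ν) ht hT0 ρ ⟨hρ.1, by linarith [hρ.2]⟩
      have h2 : Flx (u (t' / ν)) (a 2 - R' / 2) (a 2 + R' / 2) M ρ := by
        rcases h1 with h1 | h1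
        · exact Or.inl fun z₁ z₂ k1 k2 k3 => h1 z₁ z₂ (by linarith) k2 (by linarith)
        · exact Or.inr fun z₁ z₂ k1 k2 k3 => h1 z₁ z₂ (by linarith) k2 (by linarith)
      exact Flx_scale hν hρ.1 hρ.2 hvx h2)
  have hb := backA hν hv (mem_Co_self hR2 hR2) hreg
  rw [← hae] at hb
  exact hs.not_bdd hb

end Pool.Agent.D0H33.AXF
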