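import Pool.Agent.D0H33.AXF.Fl

/-!
Project AXF: from the flux through one cylinder to the bound of the primitive of `UU` on it.
-/

set_option autoImplicit false

open MeasureTheory Set Metric Filter Topology
open scoped ContDiff
open H459R3.NS Pool.Agent.W268.NS Pool.Agent.Q67.VD

namespace Pool.Agent.D0H33.AXF

open Pool.Agent.Q85.CC Pool.Agent.Q85.CL Pool.Agent.TH305.AX Pool.Agent.Q67.AXI
open Pool.Agent.Q182.AXI (sm_AA)
open Pool.Agent.W583.MD (sm_pd)

/-- The bound at one point. -/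
theorem fl_pt (hAAs : StmAAs) (hAlg : StmAlg) {c r h R H K e : ℝ} {v : V → V} (hr : 0 < r)
    (hrR : r < R) (hh : 0 < h) (hhH : h < H) (hK : 0 ≤ K) (hv : ContDiff ℝ ∞ v) (hax : Axi v)
    (hdf : DFO (Co c R H) v) (hbd : ∀ x ∈ Cy c r h, |x 2 - c| = h → |v x 2| ≤ K) {x : V}
    (hx : x ∈ Co c r h) (hx0 : 0 < sg x) (hfl : Flx v (c - h) (c + h) e (√(sg x))) :
    |QQ v (c - h) x| ≤ e / √(sg x) + K := by
  obtain ⟨⟨sU, -, -, -⟩, ⟨aU, -, -, -⟩, -, hA⟩ := hAlg v hv hax
  obtain ⟨ρ, hρ⟩ : ∃ ρ : ℝ, ρ = √(sg x) := ⟨_, rfl⟩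
  have hρ0 : 0 < ρ := by rw [hρ]; exact Real.sqrt_pos.2 hx0
  have hρ2 : ρ ^ 2 = sg x := by rw [hρ]; exact Real.sq_sqrt hx0.le
  have hρr : ρ < r := by
    have : ρ ^ 2 < r ^ 2 := by rw [hρ2]; exact hx.1
    exact lt_of_pow_lt_pow_left₀ 2 hr.le this
  have hf := hfl
  rw [← hρ] at hf
  rw [QQ_eq aU (c - h) x ρ hρ2, ← hρ]
  obtain ⟨q, hq⟩ : ∃ q : ℝ → ℝ, q = fun z => ∫ s in (c - h)..z, UU v ![ρ, 0, s] := ⟨_, rfl⟩
  have cU : Continuous fun s => UU v ![ρ, 0, s] := ln_cont sU.continuous ρ 0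
  obtain ⟨hxa, hxb⟩ := abs_lt.1 hx.2
  have q0 : q (c - h) = 0 := by rw [hq]; exact intervalIntegral.integral_same
  have e1 : ∀ z₁ z₂ : ℝ, ∫ s in z₁..z₂, v ![ρ, 0, s] 0 = ρ * (q z₂ - q z₁) := by
    intro z₁ z₂
    have h1 : q z₂ - q z₁ = ∫ s in z₁..z₂, UU v ![ρ, 0, s] := by
      rw [hq]
      exact intervalIntegral.integral_interval_sub_left (cU.intervalIntegrable _ _)
        (cU.intervalIntegrable _ _)
    rw [h1, ← intervalIntegral.integral_const_mul]
    refine intervalIntegral.integral_congr fun s _ => ?_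
    have h2 := (hA ![ρ, 0, s]).1
    simpa using h2
  have hT : |q (c + h)| ≤ K := by
    obtain ⟨g, hg⟩ : ∃ g : V → ℝ, g = fun y => -(v y 2) := ⟨_, rfl⟩
    have sg' : ContDiff ℝ ∞ g := by rw [hg]; exact (sm_cmp hv 2).neg
    have h1 : ∀ y ∈ Co c R H, UU v y = pd 2 (AA g) y := by
      intro y hy
      rw [hAAs.2.2.1 g sg']
      unfold UU AA
      refine intervalIntegral.integral_congr fun l hl => ?_
      rw [uIcc_of_le zero_le_one] at hl
      have hm : (![l * y 0, l * y 1, y 2] : V) ∈ Co c R H := by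
        refine ⟨?_, by simpa using hy.2⟩
        have h2 : sg ![l * y 0, l * y 1, y 2] = l ^ 2 * sg y := by
          simp [sg]
          ring
        rw [h2]
        have h3 := hy.1
        have h4 : l ^ 2 ≤ 1 := by nlinarith [hl.1, hl.2]
        have h5 : 0 ≤ sg y := by unfold sg; positivity
        nlinarith
      have h2 := hdf _ hm
      rw [Fin.sum_univ_three] at h2
      have h5 : pd 2 g ![l * y 0, l * y 1, y 2] = -pd 2 (fun z => v z 2) ![l * y 0, l * y 1, y 2] := by
        rw [hg]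
        unfold pd
        rw [fderiv_fun_neg]
        rfl
      show l * (_ + _) = l * _
      rw [h5]
      congr 1
      linarith
    have h2 : q (c + h) = AA g ![ρ, 0, c + h] - AA g ![ρ, 0, c - h] := by
      rw [hq, ← ln_ftc (sm_AA sg') ρ 0 (c - h) (c + h)]
      refine intervalIntegral.integral_congr fun s hs => ?_
      rw [uIcc_of_le (by linarith)] at hs
      refine h1 _ ⟨?_, ?_⟩
      · have h3 : sg ![ρ, 0, s] = ρ ^ 2 := by simp [sg]
        rw [h3]
        nlinarith
      · show |s - c| < H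
        rw [abs_lt]
        constructor <;> linarith [hs.1, hs.2]
    have h3 : ∀ z : ℝ, |z - c| = h → |AA g ![ρ, 0, z]| ≤ K / 2 := by
      intro z hz
      have h4 : ‖∫ l in (0 : ℝ)..1, l * g ![l * (![ρ, 0, z] : V) 0, l * (![ρ, 0, z] : V) 1,
          (![ρ, 0, z] : V) 2]‖ ≤ ∫ l in (0 : ℝ)..1, l * K := by
        refine intervalIntegral.norm_integral_le_of_norm_le zero_le_one
          (Eventually.of_forall fun l hl => ?_)
          (Continuous.intervalIntegrable (by fun_prop) _ _)
        have hm : (![l * (![ρ, 0, z] : V) 0, l * (![ρ, 0, z] : V) 1, (![ρ, 0, z] : V) 2] : V)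
            ∈ Cy c r h := by
          refine ⟨?_, ?_⟩
          · have h5 : sg ![l * (![ρ, 0, z] : V) 0, l * (![ρ, 0, z] : V) 1, (![ρ, 0, z] : V) 2]
                = l ^ 2 * ρ ^ 2 := by
              simp [sg]
              ring
            rw [h5]
            have h6 : l ^ 2 ≤ 1 := by nlinarith [hl.1, hl.2]
            nlinarith [sq_nonneg ρ]
          · simpa using hz.le
        have h7 := hbd _ hm (by simpa using hz)
        rw [Real.norm_eq_abs, abs_mul, abs_of_pos hl.1, hg]
        simp only [abs_neg]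
        exact mul_le_mul_of_nonneg_left h7 hl.1.le
      rw [Real.norm_eq_abs, intervalIntegral.integral_mul_const, integral_id] at h4
      have h8 : AA g ![ρ, 0, z] = ∫ l in (0 : ℝ)..1, l * g ![l * (![ρ, 0, z] : V) 0,
        l * (![ρ, 0, z] : V) 1, (![ρ, 0, z] : V) 2] := rfl
      rw [h8]
      linarith
    have h4 := h3 (c + h) (by rw [add_sub_cancel_left, abs_of_pos hh])
    have h5 := h3 (c - h) (by rw [sub_sub_cancel_left, abs_neg, abs_of_pos hh])
    rw [h2]
    have h6 := abs_sub (AA g ![ρ, 0, c + h]) (AA g ![ρ, 0, c - h])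
    linarith
  obtain ⟨hT1, hT2⟩ := abs_le.1 hT
  have hgoal : |q (x 2)| ≤ e / ρ + K := by
    rcases hf with hf | hf
    · have h1 := hf (c - h) (x 2) le_rfl (by linarith) (by linarith)
      have h2 := hf (x 2) (c + h) (by linarith) (by linarith) le_rfl
      rw [e1, q0, sub_zero] at h1
      rw [e1] at h2
      have h3 : q (x 2) ≤ e / ρ := by
        rw [le_div_iff₀ hρ0]
        linarith
      have h4 : q (c + h) - q (x 2) ≤ e / ρ := by
        rw [le_div_iff₀ hρ0]
        linarith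
      rw [abs_le]
      constructor <;> linarith
    · have h1 := hf (c - h) (x 2) le_rfl (by linarith) (by linarith)
      have h2 := hf (x 2) (c + h) (by linarith) (by linarith) le_rfl
      rw [e1, q0, sub_zero] at h1
      rw [e1] at h2
      have h3 : -(e / ρ) ≤ q (x 2) := by
        rw [← neg_div, div_le_iff₀ hρ0]
        linarith
      have h4 : -(e / ρ) ≤ q (c + h) - q (x 2) := by
        rw [← neg_div, div_le_iff₀ hρ0]
        linarith
      rw [abs_le]
      constructor <;> linarith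
  rw [hq] at hgoal
  exact hgoal

end Pool.Agent.D0H33.AXF
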