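import Pool.Agent.D0H33.AXF.Defs
import Pool.Agent.Q119.AXI.SobA
import Pool.Agent.Q175.AX.T2

/-!
Project AXF: the inequality with the weight.
-/

set_option autoImplicit false

open MeasureTheory Set Metric Filter Topology
open scoped ContDiff ENNReal NNReal
open H459R3.NS Pool.Agent.W268.NS Pool.Agent.Q67.VD

namespace Pool.Agent.D0H33.AXF

open Pool.Agent.Q85.CC Pool.Agent.Q85.CL Pool.Agent.TH305.AX Pool.Agent.Q67.AXI
open Pool.Agent.Q175.AX (cs_int har_wt wt_nn wt_meas sg_nn sg_cd GD_nn)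

lemma int6 : ∃ C : ℝ, 0 < C ∧ ∀ f : V → ℝ, ContDiff ℝ ∞ f → HasCompactSupport f →
    ∫ x, f x ^ 6 ≤ C * GD f ^ 3 := by
  obtain ⟨C, hC0, hC⟩ := Pool.Agent.Q119.AXI.sob6'
  refine ⟨C ^ 6 + 1, by positivity, fun f hf hs => ?_⟩
  have h1 := hC f (hf.of_le (by norm_cast)) hs
  have h0 : 0 ≤ ∫ x, f x ^ 6 := integral_nonneg fun x => by positivity
  have h2 : eLpNorm f 6 volume = ENNReal.ofReal ((∫ x, f x ^ 6) ^ ((1 : ℝ) / 6)) := by
    rw [(hf.continuous.memLp_of_hasCompactSupport hs).eLpNorm_eq_integral_rpow_norm (by norm_num)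
      (by norm_num)]
    congr 1
    simp only [ENNReal.toReal_ofNat, Real.norm_eq_abs]
    congr 1
    · congr 1
      funext x
      have e : |f x| ^ (6 : ℝ) = |f x| ^ (6 : ℕ) := by
        rw [← Real.rpow_natCast]
        norm_num
      rw [e]
      rw [show f x ^ 6 = (f x ^ 2) ^ 3 by ring, ← sq_abs (f x)]
      ring
    · norm_num
  have hG : 0 ≤ GD f := GD_nn f
  have h3 : GD f = ∫ x, ∑ j, pd j f x ^ 2 := rfl
  rw [h2, ENNReal.ofReal_le_ofReal_iff (by positivity), ← h3] at h1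
  calc ∫ x, f x ^ 6 = ((∫ x, f x ^ 6) ^ ((1 : ℝ) / 6)) ^ 6 := by
        rw [← Real.rpow_natCast, ← Real.rpow_mul h0]
        norm_num
    _ ≤ (C * √(GD f)) ^ 6 := pow_le_pow_left₀ (by positivity) h1 6
    _ = C ^ 6 * (√(GD f) ^ 2) ^ 3 := by ring
    _ = C ^ 6 * GD f ^ 3 := by rw [Real.sq_sqrt hG]
    _ ≤ (C ^ 6 + 1) * GD f ^ 3 := by
        have : 0 ≤ GD f ^ 3 := by positivity
        linarith

lemma wt_cmp {s : ℝ} (hs : 0 < s) (hs1 : s ≤ 1) (hl : Real.log s ≠ 0) :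
    (s ^ (6 / 25 : ℝ))⁻¹ ≤ 8 * √√(1 / (s * Real.log s ^ 2)) := by
  have hL : 0 < Real.log s ^ 2 := by positivity
  have h1 := Real.abs_log_mul_self_rpow_lt s (1 / 50) hs hs1 (by norm_num)
  have h2 : (Real.log s * s ^ (1 / 50 : ℝ)) ^ 2 ≤ 50 ^ 2 := by
    rw [← sq_abs]
    refine pow_le_pow_left₀ (abs_nonneg _) ?_ 2
    have e : (1 : ℝ) / (1 / 50) = 50 := by norm_num
    rw [e] at h1
    exact h1.le
  have e1 : s = s ^ (24 / 25 : ℝ) * (s ^ (1 / 50 : ℝ)) ^ 2 := by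
    rw [← Real.rpow_natCast, ← Real.rpow_mul hs.le, ← Real.rpow_add hs]
    norm_num
  have e2 : ((s ^ (6 / 25 : ℝ))⁻¹) ^ 4 = (s ^ (24 / 25 : ℝ))⁻¹ := by
    rw [inv_pow, ← Real.rpow_natCast, ← Real.rpow_mul hs.le]
    norm_num
  have h3 : 0 ≤ 1 / (s * Real.log s ^ 2) := by positivity
  have e3 : (8 * √√(1 / (s * Real.log s ^ 2))) ^ 4 = 4096 * (1 / (s * Real.log s ^ 2)) := by
    rw [mul_pow, show (√√(1 / (s * Real.log s ^ 2))) ^ 4
      = ((√√(1 / (s * Real.log s ^ 2))) ^ 2) ^ 2 by ring, Real.sq_sqrt (Real.sqrt_nonneg _),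
      Real.sq_sqrt h3]
    norm_num
  have hp : 0 < s ^ (24 / 25 : ℝ) := Real.rpow_pos_of_pos hs _
  have h4 : ((s ^ (6 / 25 : ℝ))⁻¹) ^ 4 ≤ (8 * √√(1 / (s * Real.log s ^ 2))) ^ 4 := by
    rw [e2, e3]
    rw [mul_one_div, inv_eq_one_div, div_le_div_iff₀ hp (by positivity)]
    have h5 : s * Real.log s ^ 2 ≤ 2500 * s ^ (24 / 25 : ℝ) := by
      have h6 : s * Real.log s ^ 2
          = s ^ (24 / 25 : ℝ) * (Real.log s * s ^ (1 / 50 : ℝ)) ^ 2 := by
        nth_rewrite 1 [e1]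
        ring
      rw [h6]
      nlinarith
    linarith
  exact le_of_pow_le_pow_left₀ (by norm_num) (by positivity) h4

theorem wi (hHar : StmHar) : StmWi := by
  obtain ⟨C6, hC6, h6⟩ := int6
  refine ⟨4096 * C6 ^ 2, by positivity, fun f hf hs hsup => ?_⟩
  obtain ⟨w, hw⟩ : ∃ w : V → ℝ, w = Pool.Agent.Q175.AX.wt := ⟨_, rfl⟩
  have hw0 : ∀ x, 0 ≤ w x := by rw [hw]; exact wt_nn
  have hwm : Measurable w := by rw [hw]; exact wt_meas
  obtain ⟨a1, a2⟩ := har_wt hHar hf hs hsup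
  rw [← hw] at a1 a2
  have hfc := hf.continuous
  have c2' : HasCompactSupport (fun x => f x ^ 2) :=
    hs.comp_left (g := fun y : ℝ => y ^ 2) (by simp)
  have c6' : HasCompactSupport (fun x => f x ^ 6) :=
    hs.comp_left (g := fun y : ℝ => y ^ 6) (by simp)
  have k2' : Continuous (fun x => f x ^ 2) := hfc.pow 2
  have k6' : Continuous (fun x => f x ^ 6) := hfc.pow 6
  have i2 : Integrable (fun x => f x ^ 2) := k2'.integrable_of_hasCompactSupport c2'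
  have i6 : Integrable (fun x => f x ^ 6) := k6'.integrable_of_hasCompactSupport c6'
  -- first step
  have eA : ∀ x, (1 : ℝ) * (√(w x) * |f x|) ^ 2 = w x * f x ^ 2 := fun x => by
    rw [one_mul, mul_pow, Real.sq_sqrt (hw0 x), sq_abs]
  have eB : ∀ x, (1 : ℝ) * |f x| ^ 2 = f x ^ 2 := fun x => by rw [one_mul, sq_abs]
  have eC : ∀ x, (1 : ℝ) * (√(w x) * |f x| * |f x|) = √(w x) * f x ^ 2 := fun x => by
    rw [one_mul, mul_assoc, ← sq, sq_abs]
  obtain ⟨b1, b2⟩ := cs_int (f := fun x => √(w x) * |f x|) (g := fun x => |f x|)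
    (w := fun _ => 1) (fun _ => zero_le_one) (a1.congr (Eventually.of_forall fun x => (eA x).symm))
    (i2.congr (Eventually.of_forall fun x => (eB x).symm))
    ((measurable_const.mul ((hwm.sqrt.mul hfc.abs.measurable).mul
      hfc.abs.measurable)).aestronglyMeasurable)
  simp only [eA, eB, eC] at b1 b2
  -- second step
  have eD : ∀ x, (1 : ℝ) * (√√(w x) * |f x|) ^ 2 = √(w x) * f x ^ 2 := fun x => by
    rw [one_mul, mul_pow, Real.sq_sqrt (Real.sqrt_nonneg _), sq_abs]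
  have eE : ∀ x, (1 : ℝ) * (|f x| ^ 3) ^ 2 = f x ^ 6 := fun x => by
    rw [one_mul]
    calc (|f x| ^ 3) ^ 2 = (|f x| ^ 2) ^ 3 := by ring
      _ = _ := by rw [sq_abs]; ring
  have eF : ∀ x, (1 : ℝ) * (√√(w x) * |f x| * |f x| ^ 3) = √√(w x) * f x ^ 4 := fun x => by
    rw [one_mul]
    calc √√(w x) * |f x| * |f x| ^ 3 = √√(w x) * (|f x| ^ 2) ^ 2 := by ring
      _ = _ := by rw [sq_abs]; ring
  obtain ⟨c1, c2⟩ := cs_int (f := fun x => √√(w x) * |f x|) (g := fun x => |f x| ^ 3)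
    (w := fun _ => 1) (fun _ => zero_le_one) (b1.congr (Eventually.of_forall fun x => (eD x).symm))
    (i6.congr (Eventually.of_forall fun x => (eE x).symm))
    ((measurable_const.mul ((hwm.sqrt.sqrt.mul hfc.abs.measurable).mul
      (hfc.abs.measurable.pow_const 3))).aestronglyMeasurable)
  simp only [eD, eE, eF] at c1 c2
  -- names
  obtain ⟨H, hH⟩ : ∃ H : ℝ, H = ∫ x, w x * f x ^ 2 := ⟨_, rfl⟩
  obtain ⟨E, hE⟩ : ∃ E : ℝ, E = ∫ x, f x ^ 2 := ⟨_, rfl⟩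
  obtain ⟨A, hA⟩ : ∃ A : ℝ, A = ∫ x, √(w x) * f x ^ 2 := ⟨_, rfl⟩
  obtain ⟨S, hS⟩ : ∃ S : ℝ, S = ∫ x, f x ^ 6 := ⟨_, rfl⟩
  obtain ⟨X, hX⟩ : ∃ X : ℝ, X = ∫ x, √√(w x) * f x ^ 4 := ⟨_, rfl⟩
  have H0 : 0 ≤ H := by rw [hH]; exact integral_nonneg fun x => mul_nonneg (hw0 x) (sq_nonneg _)
  have E0 : 0 ≤ E := by rw [hE]; exact integral_nonneg fun x => sq_nonneg _
  have A0 : 0 ≤ A := by rw [hA]; exact integral_nonneg fun x => by positivity
  have S0 : 0 ≤ S := by rw [hS]; exact integral_nonneg fun x => by positivity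
  have X0 : 0 ≤ X := by rw [hX]; exact integral_nonneg fun x => by positivity
  have G0 : 0 ≤ GD f := GD_nn f
  rw [← hH, ← hE, ← hA] at b2
  rw [← hA, ← hS, ← hX] at c2
  rw [← hH] at a2
  have hS6 : S ≤ C6 * GD f ^ 3 := by rw [hS]; exact h6 f hf hs
  have b3 : A ^ 2 ≤ H * E := by
    calc A ^ 2 ≤ √(H * E) ^ 2 := pow_le_pow_left₀ A0 b2 2
      _ = H * E := Real.sq_sqrt (by positivity)
  have c3 : X ^ 2 ≤ A * S := by
    calc X ^ 2 ≤ √(A * S) ^ 2 := pow_le_pow_left₀ X0 c2 2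
      _ = A * S := Real.sq_sqrt (by positivity)
  have hX4 : X ^ 4 ≤ C6 ^ 2 * E * GD f ^ 7 := by
    calc X ^ 4 = (X ^ 2) ^ 2 := by ring
      _ ≤ (A * S) ^ 2 := pow_le_pow_left₀ (by positivity) c3 2
      _ = A ^ 2 * S ^ 2 := by ring
      _ ≤ (H * E) * (C6 * GD f ^ 3) ^ 2 := by
          refine mul_le_mul b3 (pow_le_pow_left₀ S0 hS6 2) (by positivity) (by positivity)
      _ ≤ (GD f * E) * (C6 * GD f ^ 3) ^ 2 := by
          refine mul_le_mul_of_nonneg_right (mul_le_mul_of_nonneg_right a2 E0) (by positivity)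
      _ = _ := by ring
  -- the comparison of the weights
  have hp : ∀ x, (wt g0 x)⁻¹ * f x ^ 4 ≤ 8 * (√√(w x) * f x ^ 4) := by
    intro x
    have h4 : 0 ≤ f x ^ 4 := by positivity
    by_cases hx : f x = 0
    · rw [hx]; simp
    · have h1 := hsup x hx
      rcases (sg_nn x).eq_or_lt with h0 | h0
      · have : wt g0 x = 0 := by
          unfold wt g0
          rw [← h0, Real.zero_rpow (by norm_num)]
        rw [this, inv_zero, zero_mul]
        positivity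
      · have hlt : sg x < 1 := h1.trans_lt (by rw [Real.exp_lt_one_iff]; norm_num)
        have h2 := wt_cmp h0 hlt.le (Real.log_neg h0 hlt).ne
        have h3 : (wt g0 x)⁻¹ ≤ 8 * √√(w x) := by
          rw [hw]
          exact h2
        calc (wt g0 x)⁻¹ * f x ^ 4 ≤ 8 * √√(w x) * f x ^ 4 := mul_le_mul_of_nonneg_right h3 h4
          _ = _ := by ring
  have hn : ∀ x, 0 ≤ (wt g0 x)⁻¹ * f x ^ 4 := fun x =>
    mul_nonneg (inv_nonneg.2 (Real.rpow_nonneg (sg_nn x) _)) (by positivity)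
  have hm : AEStronglyMeasurable (fun x => (wt g0 x)⁻¹ * f x ^ 4) volume := by
    apply Measurable.aestronglyMeasurable
    refine Measurable.mul (Measurable.inv ?_) (hfc.measurable.pow_const 4)
    unfold wt
    exact sg_cd.continuous.measurable.pow_const _
  have hi : Integrable (fun x => (wt g0 x)⁻¹ * f x ^ 4) := by
    refine (c1.const_mul 8).mono' hm (Eventually.of_forall fun x => ?_)
    rw [Real.norm_of_nonneg (hn x)]
    exact hp x
  refine ⟨hi, ?_⟩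
  have hle : ∫ x, (wt g0 x)⁻¹ * f x ^ 4 ≤ 8 * X := by
    rw [hX, ← integral_const_mul]
    exact integral_mono hi (c1.const_mul 8) hp
  calc (∫ x, (wt g0 x)⁻¹ * f x ^ 4) ^ 4 ≤ (8 * X) ^ 4 :=
        pow_le_pow_left₀ (integral_nonneg hn) hle 4
    _ = 4096 * X ^ 4 := by ring
    _ ≤ 4096 * (C6 ^ 2 * E * GD f ^ 7) := by linarith
    _ = 4096 * C6 ^ 2 * (∫ x, f x ^ 2) * GD f ^ 7 := by rw [← hE]; ring

end Pool.Agent.D0H33.AXF
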